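import Pool.Agent.H588R2.Model

/-!
# Disjoint Connected Subgraphs: the problem and the algorithmic statement
-/

namespace Pool.Agent.H641R2.DCS

open Pool.Agent.H588R2

/-- `G` has pairwise vertex-disjoint connected subgraphs `D 0, …, D (k - 1)` with
`Z i ⊆ V(D i)` for every `i`. -/
def HasDCS {n k : ℕ} (G : SimpleGraph (Fin n)) (Z : Fin k → Finset (Fin n)) : Prop :=
  ∃ D : Fin k → G.Subgraph, (∀ i, (D i).Connected) ∧ (∀ i, (↑(Z i) : Set (Fin n)) ⊆ (D i).verts) ∧
    ∀ i j, i ≠ j → Disjoint (D i).verts (D j).verts

/-- Label of a vertex: `i + 1` if it belongs to `Z i`, and `0` if it is not a terminal. -/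
noncomputable def label {n k : ℕ} (Z : Fin k → Finset (Fin n)) (v : Fin n) : ℕ :=
  open Classical in if h : ∃ i, v ∈ Z i then (h.choose : ℕ) + 1 else 0

/-- The input: `n` and `k` in registers `0` and `1`; the adjacency matrix in the cells
`u * n + v`, followed by the labels of the vertices in the cells `n * n + v`. All other registers
and cells are `0`. -/
noncomputable def inputConfig {n k : ℕ} (G : SimpleGraph (Fin n)) (Z : Fin k → Finset (Fin n)) :
    Config :=
  open Classical in
  { pc := 0
    st :=
      { reg := fun x => if x = 0 then n else if x = 1 then k else 0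
        mem := fun a =>
          if h : a < n * n then
            (if G.Adj ⟨a / n, Nat.div_lt_of_lt_mul h⟩
              ⟨a % n, Nat.mod_lt _ (Nat.pos_of_ne_zero (by rintro rfl; simp at h))⟩ then 1 else 0)
          else if h' : a - n * n < n then label Z ⟨a - n * n, h'⟩ else 0 } }

/-- The word RAM program `P`, with words of `c * (n + 1) ^ 2` bits on inputs with `n` vertices,
solves every instance of Disjoint Connected Subgraphs (a graph on `n` vertices and `k` pairwise
disjoint non-empty vertex sets; `n` and `k` arbitrary) within `T n` steps (output `1` for yes,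
`0` for no). -/
def Solves (P : List Instr) (c : ℕ) (T : ℕ → ℝ) : Prop :=
  ∀ (n k : ℕ) (G : SimpleGraph (Fin n)) (Z : Fin k → Finset (Fin n)),
    (∀ i, (Z i).Nonempty) → (∀ i j, i ≠ j → Disjoint (Z i) (Z j)) →
    (HasDCS G Z → HaltsWithin (c * (n + 1) ^ 2) P (inputConfig G Z) (T n) 1) ∧
    (¬ HasDCS G Z → HaltsWithin (c * (n + 1) ^ 2) P (inputConfig G Z) (T n) 0)

end Pool.Agent.H641R2.DCS
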