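import Pool.Agent.H641R2.DCS.Math
import Pool.Agent.H641R2.DCS.Defs

/-!
Combinatorial meaning of the multilinear coefficient.
-/

namespace Pool.Agent.H641R2.DCS

open Finset MvPolynomial

variable {n : ℕ} (G : SimpleGraph (Fin n))

/-- `S` is spanned by a tree rooted at `v`. -/
inductive Tr : Finset (Fin n) → Fin n → Prop
  | one (v) : Tr {v} v
  | join {A B u v} : Tr A u → Tr B v → Disjoint A B → G.Adj v u → Tr (A ∪ B) v

variable {G}

theorem Tr.mem {S : Finset (Fin n)} {v : Fin n} (h : Tr G S v) : v ∈ S := by
  induction h with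
  | one v => simp
  | join _ _ _ _ _ ih => simp [ih]

theorem Tr.card_pos {S : Finset (Fin n)} {v : Fin n} (h : Tr G S v) : 0 < S.card :=
  Finset.card_pos.2 ⟨v, h.mem⟩

theorem Tr.leaf {S : Finset (Fin n)} {v x w : Fin n} (h : Tr G S v) (hx : x ∈ S) (hw : w ∉ S)
    (hxw : G.Adj x w) : Tr G (insert w S) v := by
  induction h with
  | one v =>
    rw [mem_singleton] at hx
    subst hx
    have : (insert w {x} : Finset (Fin n)) = {w} ∪ {x} := by
      ext; simp
    rw [this]
    exact Tr.join (Tr.one w) (Tr.one x) (by simp; rintro rfl; simp at hw) hxw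
  | @join A B u v hA hB hd hvu ihA ihB =>
    rw [mem_union, not_or] at hw
    rcases mem_union.1 hx with hx | hx
    · have := Tr.join (ihA hx hw.1) hB (by
        rw [disjoint_insert_left]; exact ⟨hw.2, hd⟩) hvu
      rwa [insert_union] at this
    · have := Tr.join hA (ihB hx hw.2) (by
        rw [disjoint_insert_right]; exact ⟨hw.1, hd⟩) hvu
      rwa [union_insert] at this

theorem Tr.exists_subgraph {S : Finset (Fin n)} {v : Fin n} (h : Tr G S v) :
    ∃ H : G.Subgraph, H.Connected ∧ H.verts = ↑S := by
  induction h with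
  | one v =>
    exact ⟨G.singletonSubgraph v, SimpleGraph.Subgraph.singletonSubgraph_connected, by simp⟩
  | @join A B u v hA hB hd hvu ihA ihB =>
    obtain ⟨H, hH, eH⟩ := ihA
    obtain ⟨K, hK, eK⟩ := ihB
    have hu : u ∈ H.verts := by rw [eH]; exact hA.mem
    have hv : v ∈ K.verts := by rw [eK]; exact hB.mem
    have hE := SimpleGraph.Subgraph.subgraphOfAdj_connected hvu.symm
    have h1 : (G.subgraphOfAdj hvu.symm ⊔ H).Connected :=
      SimpleGraph.Subgraph.connected_sup hE.preconnected hH.preconnected
        ⟨u, by simp, hu⟩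
    have h2 := SimpleGraph.Subgraph.connected_sup h1.preconnected hK.preconnected
        ⟨v, by simp, hv⟩
    refine ⟨_, h2, ?_⟩
    simp only [SimpleGraph.Subgraph.verts_sup, SimpleGraph.subgraphOfAdj_verts, eH, eK,
      coe_union]
    ext z
    simp only [Set.mem_union, Set.mem_insert_iff, Set.mem_singleton_iff, mem_coe]
    constructor
    · rintro (((rfl | rfl) | h) | h)
      · exact Or.inl hA.mem
      · exact Or.inr hB.mem
      · exact Or.inl h
      · exact Or.inr h
    · rintro (h | h)
      · exact Or.inl (Or.inr h)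
      · exact Or.inr h

theorem tr_of_connected {S : Finset (Fin n)} {H : G.Subgraph} (hH : H.Connected)
    (hS : H.verts = ↑S) {v : Fin n} (hv : v ∈ S) : Tr G S v := by
  classical
  -- a maximal spanned subset
  have hne : (S.powerset.filter fun T => Tr G T v).Nonempty :=
    ⟨{v}, by simp [hv, Tr.one]⟩
  obtain ⟨T, hT, hmax⟩ := exists_max_image _ Finset.card hne
  rw [mem_filter, mem_powerset] at hT
  obtain ⟨hTS, hT⟩ := hT
  by_cases heq : T = S
  · rwa [heq] at hT
  exfalso
  obtain ⟨z, hzS, hzT⟩ : ∃ z ∈ S, z ∉ T := by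
    by_contra hcon
    push Not at hcon
    exact heq (Subset.antisymm hTS hcon)
  have hvH : v ∈ H.verts := by rw [hS]; exact hv
  have hzH : z ∈ H.verts := by rw [hS]; exact hzS
  obtain ⟨p⟩ := (hH.coe).preconnected ⟨v, hvH⟩ ⟨z, hzH⟩
  obtain ⟨d, -, hd1, hd2⟩ := p.exists_boundary_dart {a : H.verts | (a : Fin n) ∈ T}
    (by simpa using hT.mem) (by simpa using hzT)
  have hadj : H.Adj d.fst d.snd := d.adj
  have hxw : G.Adj d.fst d.snd := H.adj_sub hadj
  have hw : (d.snd : Fin n) ∉ T := hd2
  have hx : (d.fst : Fin n) ∈ T := hd1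
  have hnew := hT.leaf hx hw hxw
  have hsub : insert (d.snd : Fin n) T ⊆ S := by
    intro a ha
    rcases mem_insert.1 ha with rfl | ha
    · exact mem_coe.1 (hS ▸ d.snd.2 : (d.snd : Fin n) ∈ (↑S : Set (Fin n)))
    · exact hTS ha
  have := hmax _ (mem_filter.2 ⟨mem_powerset.2 hsub, hnew⟩)
  rw [card_insert_of_notMem hw] at this
  omega

section Coeff

variable (G) (A : ℕ → ℕ → Bool) (lab : ℕ → ℕ)
  (hA : ∀ u v : Fin n, A u v = true ↔ G.Adj u v)

include hA

theorem bT_ne (i : ℕ) : ∀ (s : ℕ) (v : Fin n) (S : Finset (Fin n)),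
    coeff (δ S) (bT n A lab (Y n) i s v) ≠ 0 ↔
      Tr G S v ∧ S.card = s + 1 ∧ ∀ u ∈ S, lab u = 0 ∨ lab u = i + 1 := by
  intro s
  induction s using Nat.strong_induction_on with
  | _ s ih =>
    intro v S
    cases s with
    | zero =>
      simp only [bT]
      constructor
      · intro h
        split_ifs at h with hl
        · rw [Y_coe, coeff_X_ne] at h
          subst h
          exact ⟨Tr.one v, by simp, by simpa using hl⟩
        · simp at h
      · rintro ⟨ht, hc, hl⟩
        obtain ⟨w, rfl⟩ := card_eq_one.1 hc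
        have hvw := ht.mem
        rw [mem_singleton] at hvw
        subst hvw
        rw [if_pos (hl v (by simp)), Y_coe, coeff_X_ne]
    | succ s =>
      simp only [bT]
      rw [coeff_sum_ne]
      constructor
      · rintro ⟨u, hu, h⟩
        rw [mem_range] at hu
        split_ifs at h with hvu
        · rw [coeff_sum_ne] at h
          obtain ⟨j, -, h⟩ := h
          rw [coeff_mul_ne] at h
          obtain ⟨T, hTS, h1, h2⟩ := h
          obtain ⟨t1, c1, l1⟩ := (ih j (by omega) ⟨u, hu⟩ T).1 h1
          obtain ⟨t2, c2, l2⟩ := (ih (s - j) (by omega) v (S \ T)).1 h2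
          have hadj : G.Adj v ⟨u, hu⟩ := (hA v ⟨u, hu⟩).1 hvu
          have hS : T ∪ S \ T = S := union_sdiff_of_subset hTS
          refine ⟨?_, ?_, ?_⟩
          · have := Tr.join t1 t2 disjoint_sdiff hadj
            rwa [hS] at this
          · have := card_sdiff_add_card_eq_card hTS
            have := j.2
            omega
          · intro x hx
            rw [← hS, mem_union] at hx
            rcases hx with hx | hx
            · exact l1 x hx
            · exact l2 x hx
        · simp at h
      · rintro ⟨ht, hc, hl⟩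
        cases ht with
        | one v => simp at hc
        | @join T B u v hT hB hd hvu =>
          refine ⟨u, by simp, ?_⟩
          rw [if_pos ((hA v u).2 hvu), coeff_sum_ne]
          have c1 := hT.card_pos
          have c2 := hB.card_pos
          rw [card_union_of_disjoint hd] at hc
          refine ⟨⟨T.card - 1, by omega⟩, mem_univ _, ?_⟩
          rw [coeff_mul_ne]
          have hsd : (T ∪ B) \ T = B := by
            rw [union_sdiff_left]; exact sdiff_eq_self_of_disjoint hd.symm
          refine ⟨T, subset_union_left, ?_, ?_⟩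
          · exact (ih (T.card - 1) (by omega) u T).2 ⟨hT, by omega, fun x hx => hl x (by simp [hx])⟩
          · rw [hsd]
            exact (ih (s - (T.card - 1)) (by omega) v B).2
              ⟨hB, by omega, fun x hx => hl x (by simp [hx])⟩

omit hA in
/-- A family of `i` disjoint trees with union `S`, the `j`-th one in class `j`. -/
def Fam (i : ℕ) (S : Finset (Fin n)) : Prop :=
  ∃ D : ℕ → Finset (Fin n), (∀ j < i, (∃ v, Tr G (D j) v) ∧ ∀ u ∈ D j, lab u = 0 ∨ lab u = j + 1) ∧
    (∀ j < i, ∀ l < i, j ≠ l → Disjoint (D j) (D l)) ∧ S = (range i).biUnion D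

omit hA in
theorem fam_succ (i : ℕ) (S : Finset (Fin n)) : Fam G lab (i + 1) S ↔
    ∃ B ⊆ S, ((∃ v, Tr G B v) ∧ ∀ u ∈ B, lab u = 0 ∨ lab u = i + 1) ∧ Fam G lab i (S \ B) := by
  constructor
  · rintro ⟨D, h1, h2, rfl⟩
    refine ⟨D i, ?_, h1 i (by omega), D, fun j hj => h1 j (by omega),
      fun j hj l hl => h2 j (by omega) l (by omega), ?_⟩
    · exact subset_biUnion_of_mem D (by simp)
    · rw [range_add_one, biUnion_insert, union_sdiff_left, sdiff_eq_self_of_disjoint]
      rw [disjoint_biUnion_left]
      intro j hj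
      rw [mem_range] at hj
      exact h2 j (by omega) i (by omega) (by omega)
  · rintro ⟨B, hB, hg, D, h1, h2, h3⟩
    refine ⟨fun j => if j = i then B else D j, ?_, ?_, ?_⟩
    · intro j hj
      dsimp only
      by_cases h : j = i
      · subst h; rw [if_pos rfl]; exact hg
      · rw [if_neg h]; exact h1 j (by omega)
    · have hd : ∀ j < i, Disjoint (D j) B := by
        intro j hj
        have : D j ⊆ S \ B := by
          rw [h3]; exact subset_biUnion_of_mem D (by simpa using hj)
        exact disjoint_of_subset_left this sdiff_disjoint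
      intro j hj l hl hjl
      dsimp only
      by_cases h : j = i
      · rw [if_pos h, if_neg (by omega)]; exact (hd l (by omega)).symm
      · rw [if_neg h]
        by_cases h' : l = i
        · rw [if_pos h']; exact hd j (by omega)
        · rw [if_neg h']; exact h2 j (by omega) l (by omega) hjl
    · rw [range_add_one, biUnion_insert, if_pos rfl]
      have : (range i).biUnion (fun j => if j = i then B else D j) = (range i).biUnion D := by
        refine biUnion_congr rfl fun j hj => ?_
        rw [mem_range] at hj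
        rw [if_neg (by omega)]
      rw [this, ← h3, union_sdiff_of_subset hB]

theorem aT_ne (i : ℕ) : ∀ (t : ℕ) (S : Finset (Fin n)), coeff (δ S) (aT n A lab (Y n) i t) ≠ 0 ↔
    Fam G lab i S ∧ S.card = t := by
  induction i with
  | zero =>
    intro t S
    simp only [aT]
    have h1 : coeff (δ S) (1 : MvPolynomial (Fin n) ℕ) ≠ 0 ↔ S = ∅ := by
      rw [coeff_one]
      constructor
      · intro h
        by_contra hne
        obtain ⟨v, hv⟩ := nonempty_iff_ne_empty.2 hne
        rw [if_neg] at h
        · exact h rfl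
        · intro he
          have := DFunLike.congr_fun he v
          rw [δ_apply, if_pos hv] at this
          simp at this
      · rintro rfl
        rw [if_pos]
        · exact one_ne_zero
        · ext v; simp [δ_apply]
    constructor
    · intro h
      split_ifs at h with ht
      · rw [h1] at h
        subst h
        subst ht
        exact ⟨⟨fun _ => ∅, by simp, by simp, by simp⟩, by simp⟩
      · simp at h
    · rintro ⟨⟨D, _, _, hS⟩, hc⟩
      simp only [range_zero, biUnion_empty] at hS
      subst hS
      rw [card_empty] at hc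
      rw [if_pos hc.symm, h1]
  | succ i ih =>
    intro t S
    simp only [aT]
    rw [coeff_sum_ne, fam_succ]
    constructor
    · rintro ⟨s, hs, h⟩
      rw [coeff_sum_ne] at h
      obtain ⟨v, hv, h⟩ := h
      rw [mem_range] at hv hs
      split_ifs at h with hst
      · rw [coeff_mul_ne] at h
        obtain ⟨B, hB, h1, h2⟩ := h
        obtain ⟨t1, c1, l1⟩ := (bT_ne G A lab hA i s ⟨v, hv⟩ B).1 h1
        obtain ⟨f, c2⟩ := (ih _ _).1 h2
        refine ⟨⟨B, hB, ⟨⟨_, t1⟩, l1⟩, f⟩, ?_⟩
        have := card_sdiff_add_card_eq_card hB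
        omega
      · simp at h
    · rintro ⟨⟨B, hB, ⟨⟨v, hv⟩, hl⟩, hf⟩, hc⟩
      have hp := hv.card_pos
      have hn : B.card ≤ n := by
        have := card_le_univ B
        rwa [Fintype.card_fin] at this
      have hcc := card_sdiff_add_card_eq_card hB
      refine ⟨B.card - 1, by rw [mem_range]; omega, ?_⟩
      rw [coeff_sum_ne]
      refine ⟨v, by simp, ?_⟩
      rw [if_pos (by omega), coeff_mul_ne]
      refine ⟨B, hB, ?_, ?_⟩
      · exact (bT_ne G A lab hA i _ v B).2 ⟨hv, by omega, hl⟩
      · exact (ih _ _).2 ⟨hf, by omega⟩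

theorem hT_ne (k : ℕ) : ∀ (t : ℕ) (S : Finset (Fin n)), coeff (δ S) (hT n A lab (Y n) k t) ≠ 0 ↔
    S.card = t ∧ ∃ T ⊆ S, Fam G lab k T ∧ ∀ v ∈ S \ T, lab v = 0 := by
  have hadd : ∀ (α : Fin n →₀ ℕ) (p q : MvPolynomial (Fin n) ℕ),
      coeff α (p + q) ≠ 0 ↔ coeff α p ≠ 0 ∨ coeff α q ≠ 0 := by
    intro α p q
    rw [coeff_add]
    omega
  intro t
  induction t with
  | zero =>
    intro S
    simp only [hT]
    rw [aT_ne G A lab hA]
    constructor
    · rintro ⟨h1, h2⟩
      exact ⟨h2, S, Subset.refl _, h1, by simp⟩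
    · rintro ⟨h1, T, hT, h2, -⟩
      rw [card_eq_zero] at h1
      subst h1
      rw [subset_empty] at hT
      subst hT
      exact ⟨h2, by simp⟩
  | succ t ih =>
    intro S
    simp only [hT]
    rw [hadd, coeff_mul_ne, aT_ne G A lab hA]
    constructor
    · rintro (⟨T, hT, h1, h2⟩ | ⟨h1, h2⟩)
      · rw [coeff_sum_ne] at h2
        obtain ⟨v, hv, h2⟩ := h2
        rw [mem_range] at hv
        split_ifs at h2 with hl
        · have : Y n v = X ⟨v, hv⟩ := Y_coe ⟨v, hv⟩
          rw [this, coeff_X_ne] at h2
          obtain ⟨c1, T', hT', f, l⟩ := (ih T).1 h1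
          have hcc := card_sdiff_add_card_eq_card hT
          refine ⟨?_, T', hT'.trans hT, f, ?_⟩
          · rw [h2, card_singleton] at hcc; omega
          · intro x hx
            rw [mem_sdiff] at hx
            by_cases hxT : x ∈ T
            · exact l x (mem_sdiff.2 ⟨hxT, hx.2⟩)
            · have : x ∈ S \ T := mem_sdiff.2 ⟨hx.1, hxT⟩
              rw [h2, mem_singleton] at this
              subst this
              exact hl
        · simp at h2
      · exact ⟨h2, S, Subset.refl _, h1, by simp⟩
    · rintro ⟨hc, T, hT, f, l⟩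
      by_cases hTS : T = S
      · subst hTS
        exact Or.inr ⟨f, hc⟩
      · left
        obtain ⟨z, hzS, hzT⟩ : ∃ z ∈ S, z ∉ T := by
          by_contra hcon
          push Not at hcon
          exact hTS (Subset.antisymm hT hcon)
        refine ⟨S \ {z}, sdiff_subset, ?_, ?_⟩
        · rw [ih]
          refine ⟨?_, T, ?_, f, ?_⟩
          · have := card_sdiff_add_card_eq_card (singleton_subset_iff.2 hzS)
            rw [card_singleton] at this
            omega
          · intro x hx
            rw [mem_sdiff, mem_singleton]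
            exact ⟨hT hx, fun e => hzT (e ▸ hx)⟩
          · intro x hx
            simp only [mem_sdiff] at hx
            exact l x (mem_sdiff.2 ⟨hx.1.1, hx.2⟩)
        · rw [coeff_sum_ne]
          refine ⟨z, by simp, ?_⟩
          rw [if_pos (l z (mem_sdiff.2 ⟨hzS, hzT⟩)), Y_coe, coeff_X_ne]
          exact Finset.sdiff_sdiff_eq_self (singleton_subset_iff.2 hzS)

end Coeff

/-- The labels of an instance, as a function on `ℕ`. -/
noncomputable def labN {n k : ℕ} (Z : Fin k → Finset (Fin n)) (v : ℕ) : ℕ :=
  if h : v < n then label Z ⟨v, h⟩ else 0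

theorem label_eq_succ {k : ℕ} {Z : Fin k → Finset (Fin n)}
    (hZ : ∀ i j, i ≠ j → Disjoint (Z i) (Z j)) (v : Fin n) (i : Fin k) :
    label Z v = (i : ℕ) + 1 ↔ v ∈ Z i := by
  unfold label
  constructor
  · intro h
    split_ifs at h with hex
    have : hex.choose = i := Fin.ext (by omega)
    rw [← this]
    exact hex.choose_spec
  · intro h
    have hex : ∃ i, v ∈ Z i := ⟨i, h⟩
    rw [dif_pos hex]
    have : hex.choose = i := by
      by_contra hne
      exact disjoint_left.1 (hZ _ _ hne) hex.choose_spec h
    rw [this]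

theorem label_eq_zero {k : ℕ} {Z : Fin k → Finset (Fin n)} (v : Fin n) :
    label Z v = 0 ↔ ∀ i, v ∉ Z i := by
  unfold label
  constructor
  · intro h
    split_ifs at h with hex
    push Not at hex
    exact hex
  · intro h
    rw [dif_neg (by push Not; exact h)]

/-- The adjacency function of a graph. -/
noncomputable def adjN {n : ℕ} (G : SimpleGraph (Fin n)) (u v : ℕ) : Bool :=
  open Classical in if h : u < n ∧ v < n then decide (G.Adj ⟨u, h.1⟩ ⟨v, h.2⟩) else false

theorem adjN_iff (u v : Fin n) : adjN G u v = true ↔ G.Adj u v := by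
  unfold adjN
  rw [dif_pos ⟨u.2, v.2⟩]
  simp

/-- The multilinear coefficient of the total polynomial decides the problem. -/
theorem main_ne {k : ℕ} (Z : Fin k → Finset (Fin n)) (hne : ∀ i, (Z i).Nonempty)
    (hZ : ∀ i j, i ≠ j → Disjoint (Z i) (Z j)) :
    coeff (δ univ) (hT n (adjN G) (labN Z) (Y n) k n) ≠ 0 ↔ HasDCS G Z := by
  classical
  have hlab : ∀ v : Fin n, labN Z v = label Z v := fun v => by
    unfold labN; rw [dif_pos v.2]
  rw [hT_ne G (adjN G) (labN Z) (fun u v => adjN_iff u v)]
  constructor
  · rintro ⟨-, T, -, ⟨D, h1, h2, h3⟩, h4⟩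
    choose v hv using fun (i : Fin k) => (h1 i i.2).1
    choose H hH eH using fun (i : Fin k) => (hv i).exists_subgraph
    refine ⟨H, hH, ?_, ?_⟩
    · intro i x hx
      rw [eH]
      have hx' : x ∈ Z i := by simpa using hx
      have hlx : labN Z x = (i : ℕ) + 1 := by rw [hlab, label_eq_succ hZ]; exact hx'
      have hxT : x ∈ T := by
        by_contra hcon
        have := h4 x (mem_sdiff.2 ⟨mem_univ _, hcon⟩)
        omega
      rw [h3, mem_biUnion] at hxT
      obtain ⟨j, hj, hxj⟩ := hxT
      rw [mem_range] at hj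
      have := (h1 j hj).2 x hxj
      have hji : j = i := by omega
      rw [← hji]
      exact hxj
    · intro i j hij
      rw [eH, eH, disjoint_coe]
      exact h2 i i.2 j j.2 (fun e => hij (Fin.ext e))
  · rintro ⟨H, hH, hsub, hdis⟩
    refine ⟨by simp, ?_⟩
    have hfin : ∀ i, ((H i).verts.toFinset : Set (Fin n)) = (H i).verts := fun i => by simp
    let D : ℕ → Finset (Fin n) := fun j => if h : j < k then (H ⟨j, h⟩).verts.toFinset else ∅
    have hD : ∀ i : Fin k, D i = (H i).verts.toFinset := fun i => by simp [D]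
    refine ⟨(range k).biUnion D, subset_univ _, ⟨D, ?_, ?_, rfl⟩, ?_⟩
    · intro j hj
      have hDj : D j = (H ⟨j, hj⟩).verts.toFinset := hD ⟨j, hj⟩
      obtain ⟨z, hz⟩ := hne ⟨j, hj⟩
      have hz' : z ∈ (H ⟨j, hj⟩).verts := hsub ⟨j, hj⟩ (by simpa using hz)
      refine ⟨⟨z, ?_⟩, ?_⟩
      · rw [hDj]
        exact tr_of_connected (hH ⟨j, hj⟩) (by simp) (by simpa using hz')
      · intro u hu
        rw [hDj, Set.mem_toFinset] at hu
        rw [hlab]
        by_cases hu0 : label Z u = 0
        · exact Or.inl hu0
        · right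
          have hex : ∃ i, u ∈ Z i := by
            by_contra hcon
            push Not at hcon
            exact hu0 ((label_eq_zero u).2 hcon)
          obtain ⟨i, hi⟩ := hex
          have hui : u ∈ (H i).verts := hsub i (by simpa using hi)
          have hij : i = ⟨j, hj⟩ := by
            by_contra hne'
            exact Set.disjoint_left.1 (hdis _ _ hne') hui hu
          have := (label_eq_succ hZ u i).2 hi
          rw [this, hij]
    · intro j hj l hl hjl
      rw [show D j = _ from hD ⟨j, hj⟩, show D l = _ from hD ⟨l, hl⟩]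
      rw [← disjoint_coe]
      simp only [Set.coe_toFinset]
      exact hdis _ _ (fun e => hjl (by simpa using e))
    · intro v hv
      rw [mem_sdiff, mem_biUnion] at hv
      rw [hlab, label_eq_zero]
      intro i hi
      apply hv.2
      refine ⟨i, by simp, ?_⟩
      rw [hD, Set.mem_toFinset]
      exact hsub i (by simpa using hi)

end Pool.Agent.H641R2.DCS
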