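import Pool.Agent.H641R2.DCS.Sem2
import Pool.Agent.H641R2.DCS.Comb

/-!
The complete program, its correctness and its running time.
-/

namespace Pool.Agent.H641R2.DCS

open Pool.Agent.H588R2 Finset MvPolynomial

/-! ### The sum over all subsets -/

section Sum

variable {n : ℕ} (A : ℕ → ℕ → Bool) (lab : ℕ → ℕ) (k : ℕ)

/-- The subset encoded by a number. -/
def decS (n X : ℕ) : Finset (Fin n) := univ.filter fun v => X.testBit v = true

theorem decS_inj {X X' : ℕ} (hX : X < 2 ^ n) (hX' : X' < 2 ^ n) (h : decS n X = decS n X') :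
    X = X' := by
  apply Nat.eq_of_testBit_eq
  intro i
  by_cases hi : i < n
  · have := Finset.ext_iff.1 h ⟨i, hi⟩
    simp only [decS, mem_filter, mem_univ, true_and] at this
    rw [Bool.eq_iff_iff]
    exact this
  · have hp : 2 ^ n ≤ 2 ^ i := Nat.pow_le_pow_right (by omega) (by omega)
    rw [Nat.testBit_lt_two_pow (by omega), Nat.testBit_lt_two_pow (by omega)]

theorem sum_decS {R : Type*} [AddCommMonoid R] (f : Finset (Fin n) → R) :
    ∑ X ∈ range (2 ^ n), f (decS n X) = ∑ S : Finset (Fin n), f S := by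
  have hinj : Set.InjOn (decS n) (range (2 ^ n) : Set ℕ) := by
    intro X hX X' hX' h
    rw [mem_coe, mem_range] at hX hX'
    exact decS_inj hX hX' h
  have himg : (range (2 ^ n)).image (decS n) = univ := by
    apply eq_univ_of_card
    rw [card_image_of_injOn hinj]
    simp
  rw [← himg, sum_image hinj]

theorem zc_eq (X : ℕ) : zc X n = n - (decS n X).card := by
  have h1 : (decS n X).card = ((range n).filter fun v => X.testBit v = true).card := by
    rw [← card_map Fin.valEmbedding]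
    congr 1
    ext v
    simp only [decS, mem_map, mem_filter, mem_univ, true_and, Fin.valEmbedding_apply, mem_range]
    constructor
    · rintro ⟨a, ha, rfl⟩
      exact ⟨a.2, ha⟩
    · rintro ⟨hv, h⟩
      exact ⟨⟨v, hv⟩, h, rfl⟩
  have h2 := card_filter_add_card_filter_not (s := range n) (fun v => X.testBit v = true)
  rw [card_range] at h2
  have h3 : ((range n).filter fun v => ¬ X.testBit v = true) =
      ((range n).filter fun v => X.testBit v = false) := by
    congr 1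
    ext v
    simp
  rw [h3] at h2
  unfold zc
  omega

theorem eval_decS {X : ℕ} (hX : X < 2 ^ n) :
    (eval (fun v => if v ∈ decS n X then 1 else 0) (hT n A lab (Y n) k n) : ℕ) =
      hT n A lab (fun v => (X.testBit v).toNat) k n := by
  rw [map_hT]
  congr 1
  funext v
  unfold Y
  split_ifs with h
  · rw [eval_X]
    simp only [decS, mem_filter, mem_univ, true_and]
    cases X.testBit v <;> simp
  · have hp : 2 ^ n ≤ 2 ^ v := Nat.pow_le_pow_right (by omega) (by omega)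
    rw [map_zero, Nat.testBit_lt_two_pow (by omega)]
    rfl

theorem total_eq (w : ℕ) :
    ∑ X ∈ range (2 ^ n), (-1 : ZMod (2 ^ w)) ^ zc X n *
        hT n A lab (fun v => ((X.testBit v).toNat : ZMod (2 ^ w))) k n =
      ((coeff (δ univ) (hT n A lab (Y n) k n) : ℕ) : ZMod (2 ^ w)) := by
  have h := incl_excl (hT n A lab (Y n) k n) (hom_hT A lab k n)
  have h' := congrArg (Int.cast : ℤ → ZMod (2 ^ w)) h
  rw [Int.cast_natCast] at h'
  rw [← h', ← sum_decS, Int.cast_sum]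
  refine sum_congr rfl fun X hX => ?_
  rw [mem_range] at hX
  rw [eval_decS A lab k hX, zc_eq]
  push_cast
  congr 1
  exact (map_hT n A lab (fun v => (X.testBit v).toNat) (Nat.castRingHom (ZMod (2 ^ w))) k n).symm

theorem coeff_le_eval (p : MvPolynomial (Fin n) ℕ) (α : Fin n →₀ ℕ) :
    coeff α p ≤ eval (fun _ => 1) p := by
  classical
  rw [eval_eq]
  simp only [one_pow, prod_const_one, mul_one]
  by_cases h : α ∈ p.support
  · exact single_le_sum (f := fun d => coeff d p) (fun _ _ => Nat.zero_le _) h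
  · rw [notMem_support_iff.1 h]
    exact Nat.zero_le _

theorem coeff_lt {w : ℕ} (hk : k ≤ n) (hw : 16 * (n + 1) ^ 2 ≤ w) :
    coeff (δ univ) (hT n A lab (Y n) k n) < 2 ^ w := by
  have h1 : coeff (δ univ) (hT n A lab (Y n) k n) ≤
      hT n A lab (fun v => eval (fun _ => 1) (Y n v)) k n := by
    refine (coeff_le_eval _ _).trans ?_
    rw [map_hT]
  have hy : ∀ v, (eval (fun _ => 1) (Y n v) : ℕ) ≤ 1 := by
    intro v
    unfold Y
    split_ifs <;> simp
  rcases Nat.eq_zero_or_pos n with h0 | h0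
  · subst h0
    have hk0 : k = 0 := by omega
    subst hk0
    have h2 : coeff (δ univ) (hT 0 A lab (Y 0) 0 0) ≤ 1 := by
      refine h1.trans ?_
      simp [hT, aT]
    have : 2 ^ 1 ≤ 2 ^ w := Nat.pow_le_pow_right (by omega) (by omega)
    omega
  · have h2 := hT_le n h0 A lab _ hy k n le_rfl
    have h3 : (n + 1) * (n ^ k * (4 * n) ^ n) ≤ 2 ^ (5 * (n + 1) ^ 2) := by
      have hn1 : n + 1 ≤ 2 ^ (n + 1) := Nat.lt_two_pow_self.le
      have hn : n ≤ 2 ^ (n + 1) := by omega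
      have hnk : n ^ k ≤ (2 ^ (n + 1)) ^ n :=
        (Nat.pow_le_pow_right h0 hk).trans (Nat.pow_le_pow_left hn n)
      calc (n + 1) * (n ^ k * (4 * n) ^ n)
          ≤ 2 ^ (n + 1) * ((2 ^ (n + 1)) ^ n * (4 * 2 ^ (n + 1)) ^ n) :=
            Nat.mul_le_mul hn1 (Nat.mul_le_mul hnk
              (Nat.pow_le_pow_left (Nat.mul_le_mul_left 4 hn) n))
        _ = 2 ^ ((n + 1) + ((n + 1) * n + (2 + (n + 1)) * n)) := by
            rw [show (4 : ℕ) * 2 ^ (n + 1) = 2 ^ (2 + (n + 1)) by rw [pow_add 2 2]; norm_num]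
            rw [← pow_mul, ← pow_mul, ← pow_add, ← pow_add]
        _ ≤ 2 ^ (5 * (n + 1) ^ 2) := by
            apply Nat.pow_le_pow_right (by omega)
            nlinarith
    have h4 : 2 ^ (5 * (n + 1) ^ 2) < 2 ^ w := by
      apply Nat.pow_lt_pow_right (by omega)
      have : 1 ≤ (n + 1) ^ 2 := Nat.one_le_pow _ _ (by omega)
      omega
    omega

end Sum

/-! ### The program -/

def eOut : Ex := .add (.lt (rd 8 (.c 0)) (rd 9 (.c 0))) (.lt (rd 9 (.c 0)) (rd 8 (.c 0)))

def prog : Cmd :=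
  .seq (.op (.const 2 1)) (.seq (.op (.add 2 0 2)) (.seq (.op (.mul 4 2 2)) (.seq pPow.comp
    (.seq ((rd 1 (.r 0)).comp B0) (.seq (.op (.const 3 0)) (.seq (.op (.add 3 3 B0))
      (.seq pMain.comp (.seq (eOut.comp B0) (.seq (.op (.const 0 0)) (.op (.add 0 0 B0)))))))))))

/-- The registers during the main part. -/
def gg (n k : ℕ) (x : ℕ) : ℕ :=
  if x = 0 then n else if x = 1 then k else if x = 2 then n + 1 else if x = 3 then 2 ^ n else
    if x = 4 then (n + 1) ^ 2 else 0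

theorem prog_runs {w n k : ℕ} (hk : k ≤ n) (hw : 16 * (n + 1) ^ 2 ≤ w) {A : ℕ → ℕ → Bool}
    {lab : ℕ → ℕ} (hl : ∀ v < n, lab v ≤ n) (s : St) (h0 : s.reg 0 = n) (h1 : s.reg 1 = k)
    (hI : Inp n A lab s.mem) (z8 : cell n s.mem 8 0 = 0) (z9 : cell n s.mem 9 0 = 0) :
    Runs w prog s (fun s' t =>
      s'.reg 0 = (if coeff (δ univ) (hT n A lab (Y n) k n) ≠ 0 then 1 else 0) ∧
      t ≤ pPow.cost (gg n k) + (2 ^ n * (pBody.cost (gg n k) + 4) + 3) + 60) := by
  have hone : 1 ≤ (n + 1) ^ 2 := Nat.one_le_pow _ _ (by omega)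
  have hw1 : 1 ≤ w := by omega
  have h2n : 2 ^ n < 2 ^ w := Nat.pow_lt_pow_right (by omega) (by nlinarith)
  have h10 : 10 * (n + 1) ^ 2 < 2 ^ w := by
    have a1 : n + 1 ≤ 2 ^ (n + 1) := Nat.lt_two_pow_self.le
    have a2 : (n + 1) ^ 2 ≤ (2 ^ (n + 1)) ^ 2 := Nat.pow_le_pow_left a1 2
    calc 10 * (n + 1) ^ 2 ≤ 2 ^ 4 * (2 ^ (n + 1)) ^ 2 := by
          have : (10 : ℕ) ≤ 2 ^ 4 := by norm_num
          gcongr
      _ = 2 ^ (4 + (n + 1) * 2) := by rw [← pow_mul, ← pow_add]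
      _ < 2 ^ w := by
          apply Nat.pow_lt_pow_right (by omega)
          nlinarith
  have E : Env w n k (gg n k) := ⟨rfl, rfl, rfl, rfl, h10, hk⟩
  have hn := E.nlt
  have hten := E.one
  have hsq := le_sq n
  have hg : ∀ x < 8, gg n k x < 2 ^ w := by
    intro x hx
    unfold gg
    split_ifs <;> omega
  unfold prog
  apply Runs.seq
  apply Runs.const (by omega)
  apply Runs.seq
  apply Runs.add
  · rw [St.set_reg_ne _ _ (by omega), h0, St.set_reg_self]; exact hn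
  rw [St.set_reg_ne _ _ (by omega), h0, St.set_reg_self]
  apply Runs.seq
  apply Runs.mul
  · rw [St.set_reg_self]; nlinarith
  rw [St.set_reg_self]
  set s1 := (((s.set 2 1).set 2 (n + 1)).set 4 ((n + 1) * (n + 1))) with hs1
  have m1 : s1.mem = s.mem := rfl
  have r10 : s1.reg 0 = n := by
    rw [hs1, St.set_reg_ne _ _ (by omega), St.set_reg_ne _ _ (by omega),
      St.set_reg_ne _ _ (by omega), h0]
  have r11 : s1.reg 1 = k := by
    rw [hs1, St.set_reg_ne _ _ (by omega), St.set_reg_ne _ _ (by omega),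
      St.set_reg_ne _ _ (by omega), h1]
  have r12 : s1.reg 2 = n + 1 := by
    rw [hs1, St.set_reg_ne _ _ (by omega), St.set_reg_self]
  have r14 : s1.reg 4 = (n + 1) ^ 2 := by
    rw [hs1, St.set_reg_self, sq]
  apply Runs.seq
  refine (Sm.comp_ok w hw1 (gg n k) hg pPow [0, 1, 2, 4] s1 (gg n k) (by decide) (by decide)
    ?_ (fun _ _ => rfl)).mono ?_
  · intro x hx
    simp only [List.mem_cons, List.not_mem_nil, or_false] at hx
    rcases hx with rfl | rfl | rfl | rfl
    · exact r10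
    · exact r11
    · exact r12
    · exact r14
  rintro s2 t2 ⟨m2, r2, c2⟩
  rw [m1] at m2
  have r20 : s2.reg 0 = n := by rw [r2 0 (by simp), r10]
  have r21 : s2.reg 1 = k := by rw [r2 1 (by simp), r11]
  have r22 : s2.reg 2 = n + 1 := by rw [r2 2 (by simp), r12]
  have r24 : s2.reg 4 = (n + 1) ^ 2 := by rw [r2 4 (by simp), r14]
  obtain ⟨F2, P2⟩ := pPow_ev (m := s.mem) E h2n
  rw [← m2] at F2 P2
  apply Runs.seq
  refine (Ex.comp_ok w hw1 (gg n k) hg (rd 1 (.r 0)) [0, 1, 2, 4] B0 s2 (gg n k) (by decide)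
    le_rfl (by decide) ?_ (fun _ _ => rfl)).mono ?_
  · intro x hx
    simp only [List.mem_cons, List.not_mem_nil, or_false] at hx
    rcases hx with rfl | rfl | rfl | rfl
    · exact r20
    · exact r21
    · exact r22
    · exact r24
  rintro s3 t3 ⟨e3, m3, r3, c3⟩
  have e3' : s3.reg B0 = 2 ^ n := by
    rw [e3]
    exact ev_rd' E (by omega) (ev_r E.h0 (by omega)) (by omega) (P2 n le_rfl) h2n
  apply Runs.seq
  apply Runs.const (by omega)
  apply Runs.seq
  apply Runs.add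
  · rw [St.set_reg_self, St.set_reg_ne _ _ (by decide), e3']; omega
  rw [St.set_reg_self, St.set_reg_ne _ _ (by decide), e3', zero_add]
  set s4 := (s3.set 3 0).set 3 (2 ^ n) with hs4
  have m4 : s4.mem = s2.mem := m3
  have r4 : ∀ x ∈ [0, 1, 2, 3, 4], s4.reg x = gg n k x := by
    intro x hx
    simp only [List.mem_cons, List.not_mem_nil, or_false] at hx
    have hne : ∀ x, x ≠ 3 → s4.reg x = s3.reg x := fun x hx => by
      rw [hs4, St.set_reg_ne _ _ hx, St.set_reg_ne _ _ hx]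
    rcases hx with rfl | rfl | rfl | rfl | rfl
    · rw [hne 0 (by omega), r3 0 (Or.inl (by simp)), r20]; rfl
    · rw [hne 1 (by omega), r3 1 (Or.inl (by simp)), r21]; rfl
    · rw [hne 2 (by omega), r3 2 (Or.inl (by simp)), r22]; rfl
    · rw [hs4, St.set_reg_self]; rfl
    · rw [hne 4 (by omega), r3 4 (Or.inl (by simp)), r24]; rfl
  apply Runs.seq
  refine (Sm.comp_ok w hw1 (gg n k) hg pMain [0, 1, 2, 3, 4] s4 (gg n k) (by decide) (by decide)
    r4 (fun _ _ => rfl)).mono ?_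
  rintro s5 t5 ⟨m5, r5, c5⟩
  rw [m4] at m5
  have hG : Good n A lab s2.mem := ⟨hI.frame F2 (by simp), P2⟩
  have hmain := pMain_ev (m := s2.mem) E rfl h2n hG hl
    (by rw [F2 8 0 (by simp) (by omega), z8]) (by rw [F2 9 0 (by simp) (by omega), z9])
  rw [← m5, total_eq] at hmain
  apply Runs.seq
  refine (Ex.comp_ok w hw1 (gg n k) hg eOut [0, 1, 2, 3, 4] B0 s5 (gg n k) (by decide)
    le_rfl (by decide) (fun x hx => by rw [r5 x hx, r4 x hx]) (fun _ _ => rfl)).mono ?_
  rintro s6 t6 ⟨e6, m6, r6, c6⟩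
  have c0 : ∀ m, (Ex.c 0).ev w (gg n k) m = 0 := fun m => ev_c (by omega)
  have hc := coeff_lt A lab k hk hw
  have hp0 : 0 < 2 ^ w := by positivity
  have e6' : s6.reg B0 = (if coeff (δ univ) (hT n A lab (Y n) k n) ≠ 0 then 1 else 0) := by
    rw [e6]
    unfold eOut
    have x8 := ev_rd (m := s5.mem) E (b := 8) (by omega) (c0 s5.mem) (by omega)
    have x9 := ev_rd (m := s5.mem) E (b := 9) (by omega) (c0 s5.mem) (by omega)
    have l8 : cell n s5.mem 8 0 % 2 ^ w < 2 ^ w := Nat.mod_lt _ hp0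
    have l9 : cell n s5.mem 9 0 % 2 ^ w < 2 ^ w := Nat.mod_lt _ hp0
    have key : cell n s5.mem 8 0 % 2 ^ w = cell n s5.mem 9 0 % 2 ^ w ↔
        coeff (δ univ) (hT n A lab (Y n) k n) = 0 := by
      have i1 : cell n s5.mem 8 0 % 2 ^ w = cell n s5.mem 9 0 % 2 ^ w ↔
          ((cell n s5.mem 8 0 : ℕ) : ZMod (2 ^ w)) = (cell n s5.mem 9 0 : ℕ) := by
        rw [ZMod.natCast_eq_natCast_iff]; rfl
      rw [i1, ← sub_eq_zero, hmain, ZMod.natCast_eq_zero_iff]
      constructor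
      · intro h
        exact Nat.eq_zero_of_dvd_of_lt h hc
      · intro h
        rw [h]; exact dvd_zero _
    rw [ev_add (ev_lt x8 x9) (ev_lt x9 x8) (by split_ifs <;> omega)]
    by_cases hz : coeff (δ univ) (hT n A lab (Y n) k n) = 0
    · rw [if_neg (not_not.2 hz)]
      have := key.2 hz
      rw [if_neg (by omega), if_neg (by omega)]
    · rw [if_pos hz]
      have : ¬ (cell n s5.mem 8 0 % 2 ^ w = cell n s5.mem 9 0 % 2 ^ w) := fun h => hz (key.1 h)
      split_ifs <;> omega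
  apply Runs.seq
  apply Runs.const (by omega)
  have q1 : (s6.set 0 0).reg 0 = 0 := by rw [St.set_reg_self]
  have q2 : (s6.set 0 0).reg B0 =
      (if coeff (δ univ) (hT n A lab (Y n) k n) ≠ 0 then 1 else 0) := by
    rw [St.set_reg_ne _ _ (by decide), e6']
  apply Runs.add
  · rw [q1, q2]; split_ifs <;> omega
  rw [q1, q2, zero_add]
  refine ⟨by rw [St.set_reg_self], ?_⟩
  have c5' : pMain.cost (gg n k) = 2 ^ n * (pBody.cost (gg n k) + 4) + 3 := rfl
  have c3' : (rd 1 (.r 0)).cost (gg n k) = 8 := rfl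
  have c6' : eOut.cost (gg n k) ≤ 45 := by
    simp [eOut, Ex.cost, rd, blk]
  rw [c3'] at c3
  rw [c5'] at c5
  omega

/-! ### The input -/

theorem k_le {n k : ℕ} {Z : Fin k → Finset (Fin n)} (hne : ∀ i, (Z i).Nonempty)
    (hZ : ∀ i j, i ≠ j → Disjoint (Z i) (Z j)) : k ≤ n := by
  choose z hz using hne
  have hinj : Function.Injective z := by
    intro i j h
    by_contra hij
    exact disjoint_left.1 (hZ i j hij) (hz i) (h ▸ hz j)
  simpa using Fintype.card_le_of_injective z hinj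

theorem label_le {n k : ℕ} (Z : Fin k → Finset (Fin n)) (v : Fin n) : label Z v ≤ k := by
  unfold label
  split_ifs with h
  · exact h.choose.2
  · exact Nat.zero_le _

theorem labN_le {n k : ℕ} (Z : Fin k → Finset (Fin n)) (hk : k ≤ n) (v : ℕ) : labN Z v ≤ n := by
  unfold labN
  split_ifs
  · exact (label_le Z _).trans hk
  · exact Nat.zero_le _

theorem input_inp {n k : ℕ} (G : SimpleGraph (Fin n)) (Z : Fin k → Finset (Fin n)) :
    Inp n (adjN G) (labN Z) (inputConfig G Z).st.mem := by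
  constructor
  · intro v hv u hu
    have h1 : v * n + u < n * n := by nlinarith
    have h2 : (v * n + u) / n = v := by
      rw [mul_comm, Nat.mul_add_div (by omega), Nat.div_eq_of_lt hu, add_zero]
    have h3 : (v * n + u) % n = u := by
      rw [mul_comm, Nat.mul_add_mod, Nat.mod_eq_of_lt hu]
    unfold cell
    rw [zero_mul, zero_add]
    simp only [inputConfig]
    rw [dif_pos h1]
    have e1 : ∀ h, (⟨(v * n + u) / n, h⟩ : Fin n) = ⟨v, hv⟩ := fun h => Fin.ext h2
    have e2 : ∀ h, (⟨(v * n + u) % n, h⟩ : Fin n) = ⟨u, hu⟩ := fun h => Fin.ext h3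
    have e3 : adjN G v u = true ↔ G.Adj ⟨v, hv⟩ ⟨u, hu⟩ := adjN_iff (G := G) ⟨v, hv⟩ ⟨u, hu⟩
    by_cases hadj : G.Adj ⟨v, hv⟩ ⟨u, hu⟩
    · rw [if_pos (by rw [e1, e2]; exact hadj), if_pos (e3.2 hadj)]
    · rw [if_neg (by rw [e1, e2]; exact hadj), if_neg (fun h => hadj (e3.1 h))]
  · intro v hv
    unfold cell
    rw [zero_mul, zero_add]
    simp only [inputConfig]
    rw [dif_neg (by omega)]
    have e : n * n + v - n * n = v := by omega
    simp only [e, labN]

theorem input_zero {n k : ℕ} (G : SimpleGraph (Fin n)) (Z : Fin k → Finset (Fin n)) {b : ℕ}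
    (hb : 1 ≤ b) : cell n (inputConfig G Z).st.mem b 0 = 0 := by
  unfold cell
  have h : (n + 1) ^ 2 ≤ b * (n + 1) ^ 2 := Nat.le_mul_of_pos_left _ hb
  have h2 : (n + 1) ^ 2 = n * n + 2 * n + 1 := by ring
  simp only [inputConfig, add_zero]
  rw [dif_neg (by omega), dif_neg (by omega)]

/-- Running a structured command as a complete program. -/
theorem halts_of_runs {w : ℕ} {c : Cmd} {s : St} {T : ℝ} {out : ℕ}
    (h : Runs w c s (fun s' t => s'.reg 0 = out ∧ (t : ℝ) ≤ T)) :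
    HaltsWithin w (c.compile 0 ++ [.halt]) ⟨0, s⟩ T out := by
  obtain ⟨s', t, he, ho, ht⟩ := h
  have hAt : At (c.compile 0 ++ [.halt]) 0 (c.compile 0) := by
    intro i hi
    rw [Nat.zero_add, List.getElem?_append_left hi]
  have := compile_correct w _ he 0 hAt
  refine ⟨t, ht, ?_, ?_⟩
  · left
    rw [this]
    simp only [Nat.zero_add]
    rw [List.getElem?_append_right (by rw [Cmd.length_compile]), Cmd.length_compile, Nat.sub_self]
    rfl
  · rw [this]; exact ho

/-- The cost is at most `C * 2 ^ n * (n + 1) ^ a`. -/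
theorem cost_bound : ∃ C a : ℕ, ∀ n k : ℕ, k ≤ n →
    pPow.cost (gg n k) + (2 ^ n * (pBody.cost (gg n k) + 4) + 3) + 60 ≤
      C * 2 ^ n * (n + 1) ^ a := by
  obtain ⟨C₁, a₁, h₁⟩ := pPow.cost_le
  obtain ⟨C₂, a₂, h₂⟩ := pBody.cost_le
  refine ⟨(C₁ + C₂ + 67) * 2 ^ (a₁ + a₂), a₁ + a₂, fun n k hk => ?_⟩
  have hg : ∀ x ∈ [0, 1, 2], gg n k x ≤ n + 1 := by
    intro x hx
    simp only [List.mem_cons, List.not_mem_nil, or_false] at hx
    rcases hx with rfl | rfl | rfl <;> simp [gg] <;> omega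
  have b1 : ∀ x ∈ pPow.bds, x ∈ [0, 1, 2] := by decide
  have b2 : ∀ x ∈ pBody.bds, x ∈ [0, 1, 2] := by decide
  have i₁ := h₁ (gg n k) (n + 1) (fun x hx => hg x (b1 x hx))
  have i₂ := h₂ (gg n k) (n + 1) (fun x hx => hg x (b2 x hx))
  have p₁ : (n + 1 + 1) ^ a₁ ≤ (n + 1 + 1) ^ (a₁ + a₂) :=
    Nat.pow_le_pow_right (by omega) (by omega)
  have p₂ : (n + 1 + 1) ^ a₂ ≤ (n + 1 + 1) ^ (a₁ + a₂) :=
    Nat.pow_le_pow_right (by omega) (by omega)
  have p₃ : 1 ≤ (n + 1 + 1) ^ (a₁ + a₂) := Nat.one_le_pow _ _ (by omega)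
  have p₄ : (n + 1 + 1) ^ (a₁ + a₂) ≤ 2 ^ (a₁ + a₂) * (n + 1) ^ (a₁ + a₂) := by
    rw [← mul_pow]
    exact Nat.pow_le_pow_left (by omega) _
  have p₅ : 1 ≤ 2 ^ n := Nat.one_le_two_pow
  set T := (n + 1 + 1) ^ (a₁ + a₂)
  calc pPow.cost (gg n k) + (2 ^ n * (pBody.cost (gg n k) + 4) + 3) + 60
      ≤ 2 ^ n * (C₁ * T) + (2 ^ n * (C₂ * T + 4 * T) + 2 ^ n * (3 * T)) + 2 ^ n * (60 * T) := by
        have q1 : pPow.cost (gg n k) ≤ 2 ^ n * (C₁ * T) := by
          calc _ ≤ C₁ * T := i₁.trans (Nat.mul_le_mul_left _ p₁)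
            _ ≤ _ := Nat.le_mul_of_pos_left _ p₅
        have q2 : 2 ^ n * (pBody.cost (gg n k) + 4) ≤ 2 ^ n * (C₂ * T + 4 * T) := by
          apply Nat.mul_le_mul_left
          have := i₂.trans (Nat.mul_le_mul_left _ p₂)
          omega
        have q3 : 1 ≤ 2 ^ n * T := Nat.mul_pos p₅ p₃
        have q4 : 2 ^ n * (3 * T) = 3 * (2 ^ n * T) := by ring
        have q5 : 2 ^ n * (60 * T) = 60 * (2 ^ n * T) := by ring
        omega
    _ = (C₁ + C₂ + 67) * 2 ^ n * T := by ring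
    _ ≤ (C₁ + C₂ + 67) * 2 ^ n * (2 ^ (a₁ + a₂) * (n + 1) ^ (a₁ + a₂)) :=
        Nat.mul_le_mul_left _ p₄
    _ = _ := by ring

/-- Disjoint Connected Subgraphs in time `2 ^ n * poly (n)`. -/
theorem dcs_two_pow : ∃ (P : List Instr) (c C a : ℕ),
    Solves P c (fun n => (C : ℝ) * 2 ^ n * ((n : ℝ) + 1) ^ a) := by
  obtain ⟨C, a, hC⟩ := cost_bound
  refine ⟨prog.compile 0 ++ [.halt], 16, C, a, ?_⟩
  intro n k G Z hne hZ
  have hk := k_le hne hZ
  have hrun := prog_runs (w := 16 * (n + 1) ^ 2) hk le_rfl (A := adjN G) (lab := labN Z)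
    (fun v _ => labN_le Z hk v) (inputConfig G Z).st rfl rfl (input_inp G Z)
    (input_zero G Z (by omega)) (input_zero G Z (by omega))
  have key : ∀ out, (if coeff (δ univ) (hT n (adjN G) (labN Z) (Y n) k n) ≠ 0 then 1 else 0) = out →
      HaltsWithin (16 * (n + 1) ^ 2) (prog.compile 0 ++ [.halt]) (inputConfig G Z)
        ((C : ℝ) * 2 ^ n * ((n : ℝ) + 1) ^ a) out := by
    intro out ho
    apply halts_of_runs
    refine hrun.mono ?_
    rintro s' t ⟨h1, h2⟩
    refine ⟨h1.trans ho, ?_⟩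
    have := h2.trans (hC n k hk)
    calc (t : ℝ) ≤ ((C * 2 ^ n * (n + 1) ^ a : ℕ) : ℝ) := by exact_mod_cast this
      _ = _ := by push_cast; ring
  constructor
  · intro h
    exact key 1 (if_pos ((main_ne Z hne hZ).2 h))
  · intro h
    exact key 0 (if_neg (fun h' => h ((main_ne Z hne hZ).1 h')))

end Pool.Agent.H641R2.DCS
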