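import Pool.Agent.H588R2.Ram

/-!
A small language of arithmetic expressions with bounded sums and of array programs, compiled
to the word RAM, with a cost bound.
-/

namespace Pool.Agent.H641R2.DCS

open Pool.Agent.H588R2

/-- Expressions: constants, registers, memory cells, arithmetic, comparison (value 0 or 1) and
sums `∑_{v < reg x} b`, the summation variable being kept in register `v`. -/
inductive Ex where
  | c (m : ℕ)
  | r (x : ℕ)
  | ld (a : Ex)
  | add (a b : Ex)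
  | sub (a b : Ex)
  | mul (a b : Ex)
  | lt (a b : Ex)
  | sum (x v : ℕ) (b : Ex)

/-- Array programs. -/
inductive Sm where
  | st (a b : Ex)
  | seq (p q : Sm)
  | rep (x v : ℕ) (b : Sm)

/-- First scratch register. -/
abbrev B0 : ℕ := 32

def Ex.comp : ℕ → Ex → Cmd
  | d, .c m => .op (.const d m)
  | d, .r x => .seq (.op (.const d 0)) (.op (.add d d x))
  | d, .ld a => .seq (a.comp d) (.op (.load d d))
  | d, .add a b => .seq (a.comp d) (.seq (b.comp (d + 1)) (.op (.add d d (d + 1))))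
  | d, .sub a b => .seq (a.comp d) (.seq (b.comp (d + 1)) (.op (.sub d d (d + 1))))
  | d, .mul a b => .seq (a.comp d) (.seq (b.comp (d + 1)) (.op (.mul d d (d + 1))))
  | d, .lt a b => .seq (a.comp d) (.seq (b.comp (d + 1))
      (.ite d (d + 1) (.op (.const d 1)) (.op (.const d 0))))
  | d, .sum x v b => .seq (.op (.const d 0)) (.seq (.op (.const v 0))
      (.loop v x (.seq (b.comp (d + 1)) (.seq (.op (.add d d (d + 1)))
        (.seq (.op (.const (d + 1) 1)) (.op (.add v v (d + 1))))))))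

def Sm.comp : Sm → Cmd
  | .st a b => .seq (a.comp B0) (.seq (b.comp (B0 + 1)) (.op (.store B0 (B0 + 1))))
  | .seq p q => .seq p.comp q.comp
  | .rep x v b => .seq (.op (.const v 0)) (.loop v x (.seq b.comp
      (.seq (.op (.const B0 1)) (.op (.add v v B0)))))

/-- Value of an expression (arithmetic modulo `2 ^ w`). -/
def Ex.ev (w : ℕ) : (ℕ → ℕ) → (ℕ → ℕ) → Ex → ℕ
  | _, _, .c k => k % 2 ^ w
  | ρ, _, .r x => ρ x % 2 ^ w
  | ρ, m, .ld a => m (a.ev w ρ m) % 2 ^ w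
  | ρ, m, .add a b => (a.ev w ρ m + b.ev w ρ m) % 2 ^ w
  | ρ, m, .sub a b => (a.ev w ρ m - b.ev w ρ m) % 2 ^ w
  | ρ, m, .mul a b => (a.ev w ρ m * b.ev w ρ m) % 2 ^ w
  | ρ, m, .lt a b => if a.ev w ρ m < b.ev w ρ m then 1 else 0
  | ρ, m, .sum x v b => (∑ i ∈ Finset.range (ρ x), b.ev w (Function.update ρ v i) m) % 2 ^ w

/-- Effect of a program on the memory. -/
def Sm.ev (w : ℕ) : (ℕ → ℕ) → Sm → (ℕ → ℕ) → (ℕ → ℕ)
  | ρ, .st a b, m => Function.update m (a.ev w ρ m) (b.ev w ρ m)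
  | ρ, .seq p q, m => q.ev w ρ (p.ev w ρ m)
  | ρ, .rep x v b, m => Nat.rec m (fun i m' => b.ev w (Function.update ρ v i) m') (ρ x)

/-- Bound for the running time; `g` gives the values of the bound registers. -/
def Ex.cost (g : ℕ → ℕ) : Ex → ℕ
  | .c _ => 1
  | .r _ => 2
  | .ld a => a.cost g + 1
  | .add a b => a.cost g + b.cost g + 1
  | .sub a b => a.cost g + b.cost g + 1
  | .mul a b => a.cost g + b.cost g + 1
  | .lt a b => a.cost g + b.cost g + 3
  | .sum x _ b => g x * (b.cost g + 5) + 4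

def Sm.cost (g : ℕ → ℕ) : Sm → ℕ
  | .st a b => a.cost g + b.cost g + 1
  | .seq p q => p.cost g + q.cost g
  | .rep x _ b => g x * (b.cost g + 4) + 3

/-- Scoping: `Γ` lists the live registers. -/
def Ex.sc : List ℕ → Ex → Bool
  | _, .c _ => true
  | Γ, .r x => decide (x ∈ Γ)
  | Γ, .ld a => a.sc Γ
  | Γ, .add a b => a.sc Γ && b.sc Γ
  | Γ, .sub a b => a.sc Γ && b.sc Γ
  | Γ, .mul a b => a.sc Γ && b.sc Γ
  | Γ, .lt a b => a.sc Γ && b.sc Γ
  | Γ, .sum x v b => decide (x ∈ Γ) && decide (x < 8) && decide (v ∉ Γ) && decide (8 ≤ v) &&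
      decide (v < B0) && b.sc (v :: Γ)

def Sm.sc : List ℕ → Sm → Bool
  | Γ, .st a b => a.sc Γ && b.sc Γ
  | Γ, .seq p q => p.sc Γ && q.sc Γ
  | Γ, .rep x v b => decide (x ∈ Γ) && decide (x < 8) && decide (v ∉ Γ) && decide (8 ≤ v) &&
      decide (v < B0) && b.sc (v :: Γ)

theorem Ex.ev_lt (w : ℕ) (hw : 1 ≤ w) (ρ m : ℕ → ℕ) (e : Ex) : e.ev w ρ m < 2 ^ w := by
  have h0 : 0 < 2 ^ w := by positivity
  have h1 : 1 < 2 ^ w := Nat.one_lt_two_pow (by omega)
  cases e <;> simp only [Ex.ev] <;> first | exact Nat.mod_lt _ h0 | (split_ifs <;> omega)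

/-- Correctness of compiled expressions. -/
theorem Ex.comp_ok (w : ℕ) (hw : 1 ≤ w) (g : ℕ → ℕ) (hg : ∀ x < 8, g x < 2 ^ w) (e : Ex) :
    ∀ (Γ : List ℕ) (d : ℕ) (s : St) (ρ : ℕ → ℕ), e.sc Γ = true → B0 ≤ d → (∀ x ∈ Γ, x < B0) →
      (∀ x ∈ Γ, s.reg x = ρ x) → (∀ x < 8, ρ x = g x) →
      Runs w (e.comp d) s (fun s' t => s'.reg d = e.ev w ρ s.mem ∧ s'.mem = s.mem ∧
        (∀ x, (x ∈ Γ ∨ (B0 ≤ x ∧ x < d)) → s'.reg x = s.reg x) ∧ t ≤ e.cost g) := by
  have h1 : 1 < 2 ^ w := Nat.one_lt_two_pow (by omega)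
  have h0 : 0 < 2 ^ w := by omega
  have bin : ∀ (a b : Ex) (o : ℕ → ℕ → ℕ → Op) (f : ℕ → ℕ → ℕ),
      (∀ d x y (s : St), (o d x y).exec w s = s.set d (f (s.reg x) (s.reg y) % 2 ^ w)) →
      (∀ (Γ : List ℕ) (d : ℕ) (s : St) (ρ : ℕ → ℕ), a.sc Γ = true → B0 ≤ d → (∀ x ∈ Γ, x < B0) →
      (∀ x ∈ Γ, s.reg x = ρ x) → (∀ x < 8, ρ x = g x) →
      Runs w (a.comp d) s (fun s' t => s'.reg d = a.ev w ρ s.mem ∧ s'.mem = s.mem ∧
        (∀ x, (x ∈ Γ ∨ (B0 ≤ x ∧ x < d)) → s'.reg x = s.reg x) ∧ t ≤ a.cost g)) →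
      (∀ (Γ : List ℕ) (d : ℕ) (s : St) (ρ : ℕ → ℕ), b.sc Γ = true → B0 ≤ d → (∀ x ∈ Γ, x < B0) →
      (∀ x ∈ Γ, s.reg x = ρ x) → (∀ x < 8, ρ x = g x) →
      Runs w (b.comp d) s (fun s' t => s'.reg d = b.ev w ρ s.mem ∧ s'.mem = s.mem ∧
        (∀ x, (x ∈ Γ ∨ (B0 ≤ x ∧ x < d)) → s'.reg x = s.reg x) ∧ t ≤ b.cost g)) →
      ∀ (Γ : List ℕ) (d : ℕ) (s : St) (ρ : ℕ → ℕ), a.sc Γ = true → b.sc Γ = true →
      B0 ≤ d → (∀ x ∈ Γ, x < B0) →
      (∀ x ∈ Γ, s.reg x = ρ x) → (∀ x < 8, ρ x = g x) →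
      Runs w (.seq (a.comp d) (.seq (b.comp (d + 1)) (.op (o d d (d + 1))))) s
        (fun s' t => s'.reg d = f (a.ev w ρ s.mem) (b.ev w ρ s.mem) % 2 ^ w ∧ s'.mem = s.mem ∧
        (∀ x, (x ∈ Γ ∨ (B0 ≤ x ∧ x < d)) → s'.reg x = s.reg x) ∧
        t ≤ a.cost g + b.cost g + 1) := by
    intro a b o f ho iha ihb Γ d s ρ hsa hsb hd hΓ hs hρ
    apply Runs.seq
    refine (iha Γ d s ρ hsa hd hΓ hs hρ).mono ?_
    rintro s1 t1 ⟨e1, m1, r1, c1⟩
    apply Runs.seq
    refine (ihb Γ (d + 1) s1 ρ hsb (by omega) hΓ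
      (fun x hx => by rw [r1 x (Or.inl hx), hs x hx]) hρ).mono ?_
    rintro s2 t2 ⟨e2, m2, r2, c2⟩
    apply Runs.op
    rw [ho]
    have ed : s2.reg d = a.ev w ρ s.mem := by
      rw [r2 d (Or.inr ⟨hd, by omega⟩), e1]
    refine ⟨?_, ?_, ?_, by omega⟩
    · rw [St.set_reg_self, ed, e2, m1]
    · rw [St.set_mem, m2, m1]
    · intro x hx
      have hxd : x ≠ d := by
        rcases hx with hx | hx
        · have := hΓ x hx; omega
        · omega
      rw [St.set_reg_ne _ _ hxd, r2 x (by rcases hx with hx | hx; exact Or.inl hx; exact Or.inr ⟨hx.1, by omega⟩),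
        r1 x hx]
  induction e with
  | c k =>
    intro Γ d s ρ _ hd hΓ hs hρ
    apply Runs.op
    refine ⟨?_, rfl, ?_, le_refl _⟩
    · simp [Op.exec, Ex.ev]
    · intro x hx
      have hxd : x ≠ d := by
        rcases hx with hx | hx
        · have := hΓ x hx; omega
        · omega
      simp [Op.exec, Function.update_of_ne hxd]
  | r y =>
    intro Γ d s ρ hsc hd hΓ hs hρ
    simp only [Ex.sc, decide_eq_true_eq] at hsc
    have hyd : y ≠ d := by have := hΓ y hsc; omega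
    apply Runs.seq
    apply Runs.op
    apply Runs.op
    refine ⟨?_, rfl, ?_, le_refl _⟩
    · simp [Op.exec, Ex.ev, Function.update_of_ne hyd, hs y hsc]
    · intro x hx
      have hxd : x ≠ d := by
        rcases hx with hx | hx
        · have := hΓ x hx; omega
        · omega
      simp [Op.exec, Function.update_of_ne hxd]
  | ld a ih =>
    intro Γ d s ρ hsc hd hΓ hs hρ
    simp only [Ex.sc] at hsc
    apply Runs.seq
    refine (ih Γ d s ρ hsc hd hΓ hs hρ).mono ?_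
    rintro s1 t1 ⟨e1, m1, r1, c1⟩
    apply Runs.op
    refine ⟨?_, ?_, ?_, ?_⟩
    · simp [Op.exec, Ex.ev, e1, m1]
    · simp [Op.exec, m1]
    · intro x hx
      have hxd : x ≠ d := by
        rcases hx with hx | hx
        · have := hΓ x hx; omega
        · omega
      simp [Op.exec, Function.update_of_ne hxd, r1 x hx]
    · simp only [Ex.cost]; omega
  | add a b iha ihb =>
    intro Γ d s ρ hsc hd hΓ hs hρ
    simp only [Ex.sc, Bool.and_eq_true] at hsc
    exact bin a b Op.add (fun x y => x + y) (fun _ _ _ _ => rfl) iha ihb Γ d s ρ hsc.1 hsc.2 hd hΓ hs hρ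
  | sub a b iha ihb =>
    intro Γ d s ρ hsc hd hΓ hs hρ
    simp only [Ex.sc, Bool.and_eq_true] at hsc
    exact bin a b Op.sub (fun x y => x - y) (fun _ _ _ _ => rfl) iha ihb Γ d s ρ hsc.1 hsc.2 hd hΓ hs hρ
  | mul a b iha ihb =>
    intro Γ d s ρ hsc hd hΓ hs hρ
    simp only [Ex.sc, Bool.and_eq_true] at hsc
    exact bin a b Op.mul (fun x y => x * y) (fun _ _ _ _ => rfl) iha ihb Γ d s ρ hsc.1 hsc.2 hd hΓ hs hρ
  | lt a b iha ihb =>
    intro Γ d s ρ hsc hd hΓ hs hρ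
    simp only [Ex.sc, Bool.and_eq_true] at hsc
    apply Runs.seq
    refine (iha Γ d s ρ hsc.1 hd hΓ hs hρ).mono ?_
    rintro s1 t1 ⟨e1, m1, r1, c1⟩
    apply Runs.seq
    refine (ihb Γ (d + 1) s1 ρ hsc.2 (by omega) hΓ
      (fun x hx => by rw [r1 x (Or.inl hx), hs x hx]) hρ).mono ?_
    rintro s2 t2 ⟨e2, m2, r2, c2⟩
    have ed : s2.reg d = a.ev w ρ s.mem := by
      rw [r2 d (Or.inr ⟨hd, by omega⟩), e1]
    have e2' : s2.reg (d + 1) = b.ev w ρ s.mem := by rw [e2, m1]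
    have hpres : ∀ x, (x ∈ Γ ∨ (B0 ≤ x ∧ x < d)) → ∀ v, (s2.set d v).reg x = s.reg x := by
      intro x hx v
      have hxd : x ≠ d := by
        rcases hx with hx | hx
        · have := hΓ x hx; omega
        · omega
      rw [St.set_reg_ne _ _ hxd, r2 x (by rcases hx with hx | hx; exact Or.inl hx; exact Or.inr ⟨hx.1, by omega⟩),
        r1 x hx]
    apply Runs.ite
    · intro hlt
      rw [ed, e2'] at hlt
      apply Runs.const h1
      refine ⟨?_, ?_, fun x hx => hpres x hx _, ?_⟩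
      · rw [St.set_reg_self]; simp only [Ex.ev]; rw [if_pos hlt]
      · rw [St.set_mem, m2, m1]
      · simp only [Ex.cost]; omega
    · intro hlt
      rw [ed, e2'] at hlt
      apply Runs.const h0
      refine ⟨?_, ?_, fun x hx => hpres x hx _, ?_⟩
      · rw [St.set_reg_self]; simp only [Ex.ev]; rw [if_neg hlt]
      · rw [St.set_mem, m2, m1]
      · simp only [Ex.cost]; omega
  | sum x v b ih =>
    intro Γ d s ρ hsc hd hΓ hs hρ
    simp only [Ex.sc, Bool.and_eq_true, decide_eq_true_eq] at hsc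
    obtain ⟨⟨⟨⟨⟨hxΓ, hx8⟩, hvΓ⟩, hv8⟩, hvB⟩, hb⟩ := hsc
    have hvd : v ≠ d := by omega
    have hvd' : v ≠ d + 1 := by omega
    have hxv : x ≠ v := by omega
    have hxd : x ≠ d := by omega
    have hxd' : x ≠ d + 1 := by omega
    apply Runs.seq
    apply Runs.const h0
    apply Runs.seq
    apply Runs.const h0
    refine Runs.loop (g x) (fun q s' τ => s'.mem = s.mem ∧
      (∀ y, (y ∈ Γ ∨ (B0 ≤ y ∧ y < d)) → s'.reg y = s.reg y) ∧ s'.reg v = q ∧
      s'.reg d = (∑ i ∈ Finset.range q, b.ev w (Function.update ρ v i) s.mem) % 2 ^ w ∧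
      τ ≤ q * (b.cost g + 5)) ?_ ?_ ?_ ?_
    · rintro q s' τ hq ⟨m', r', v', d', c'⟩
      have hxg : s'.reg x = g x := by rw [r' x (Or.inl hxΓ), hs x hxΓ, hρ x hx8]
      refine ⟨by rw [v', hxg]; exact hq, ?_⟩
      apply Runs.seq
      refine (ih (v :: Γ) (d + 1) s' (Function.update ρ v q) hb (by omega) ?_ ?_ ?_).mono ?_
      · intro y hy
        rcases List.mem_cons.1 hy with rfl | hy
        · exact hvB
        · exact hΓ y hy
      · intro y hy
        rcases List.mem_cons.1 hy with rfl | hy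
        · rw [v', Function.update_self]
        · have hyv : y ≠ v := fun h => hvΓ (by rw [← h]; exact hy)
          rw [r' y (Or.inl hy), hs y hy, Function.update_of_ne hyv]
      · intro y hy
        rw [Function.update_of_ne (by omega), hρ y hy]
      rintro s1 t1 ⟨e1, m1, r1, c1⟩
      apply Runs.seq
      apply Runs.op
      apply Runs.seq
      apply Runs.op
      apply Runs.op
      have rd : s1.reg d = (∑ i ∈ Finset.range q, b.ev w (Function.update ρ v i) s.mem) % 2 ^ w := by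
        rw [r1 d (Or.inr ⟨hd, by omega⟩), d']
      have rv : s1.reg v = q := by
        rw [r1 v (Or.inl (by simp)), v']
      refine ⟨?_, ?_, ?_, ?_, ?_⟩
      · simp [Op.exec, m1, m']
      · intro y hy
        have hyd : y ≠ d := by
          rcases hy with hy | hy
          · have := hΓ y hy; omega
          · omega
        have hyd' : y ≠ d + 1 := by
          rcases hy with hy | hy
          · have := hΓ y hy; omega
          · omega
        have hyv : y ≠ v := by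
          rcases hy with hy | hy
          · rintro rfl; exact hvΓ hy
          · omega
        simp only [Op.exec]
        rw [Function.update_of_ne hyv, Function.update_of_ne hyd', Function.update_of_ne hyd,
          r1 y (by rcases hy with hy | hy; exact Or.inl (by simp [hy]); exact Or.inr ⟨hy.1, by omega⟩),
          r' y hy]
      · simp only [Op.exec]
        rw [Function.update_self, Function.update_of_ne hvd', Function.update_of_ne hvd, rv,
          Function.update_self]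
        have := hg x hx8
        rw [Nat.mod_eq_of_lt h1, Nat.mod_eq_of_lt (by omega)]
      · simp only [Op.exec]
        rw [Function.update_of_ne (Ne.symm hvd), Function.update_of_ne (by omega),
          Function.update_self, rd, e1, m', Finset.sum_range_succ]
        simp [Nat.add_mod]
      · have : (q + 1) * (b.cost g + 5) = q * (b.cost g + 5) + (b.cost g + 5) := by ring
        omega
    · rintro s' τ ⟨m', r', v', d', c'⟩
      rw [v', r' x (Or.inl hxΓ), hs x hxΓ, hρ x hx8]; omega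
    · refine ⟨rfl, ?_, by simp, ?_, by simp⟩
      · intro y hy
        have hyd : y ≠ d := by
          rcases hy with hy | hy
          · have := hΓ y hy; omega
          · omega
        have hyv : y ≠ v := by
          rcases hy with hy | hy
          · rintro rfl; exact hvΓ hy
          · omega
        rw [St.set_reg_ne _ _ hyv, St.set_reg_ne _ _ hyd]
      · rw [St.set_reg_ne _ _ (Ne.symm hvd)]; simp
    · rintro s' τ ⟨m', r', v', d', c'⟩
      refine ⟨?_, m', r', ?_⟩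
      · rw [d']; simp only [Ex.ev]; rw [hρ x hx8]
      · simp only [Ex.cost]; omega

/-- Correctness of compiled programs. -/
theorem Sm.comp_ok (w : ℕ) (hw : 1 ≤ w) (g : ℕ → ℕ) (hg : ∀ x < 8, g x < 2 ^ w) (p : Sm) :
    ∀ (Γ : List ℕ) (s : St) (ρ : ℕ → ℕ), p.sc Γ = true → (∀ x ∈ Γ, x < B0) →
      (∀ x ∈ Γ, s.reg x = ρ x) → (∀ x < 8, ρ x = g x) →
      Runs w p.comp s (fun s' t => s'.mem = p.ev w ρ s.mem ∧
        (∀ x ∈ Γ, s'.reg x = s.reg x) ∧ t ≤ p.cost g) := by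
  have h1 : 1 < 2 ^ w := Nat.one_lt_two_pow (by omega)
  have h0 : 0 < 2 ^ w := by omega
  induction p with
  | st a b =>
    intro Γ s ρ hsc hΓ hs hρ
    simp only [Sm.sc, Bool.and_eq_true] at hsc
    apply Runs.seq
    refine (Ex.comp_ok w hw g hg a Γ B0 s ρ hsc.1 le_rfl hΓ hs hρ).mono ?_
    rintro s1 t1 ⟨e1, m1, r1, c1⟩
    apply Runs.seq
    refine (Ex.comp_ok w hw g hg b Γ (B0 + 1) s1 ρ hsc.2 (by omega) hΓ
      (fun x hx => by rw [r1 x (Or.inl hx), hs x hx]) hρ).mono ?_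
    rintro s2 t2 ⟨e2, m2, r2, c2⟩
    apply Runs.op
    refine ⟨?_, ?_, ?_⟩
    · simp only [Op.exec, Sm.ev]
      rw [r2 B0 (Or.inr ⟨le_rfl, by omega⟩), e1, e2, m2, m1]
    · intro x hx
      simp only [Op.exec]
      rw [r2 x (Or.inl hx), r1 x (Or.inl hx)]
    · simp only [Sm.cost]; omega
  | seq p q ihp ihq =>
    intro Γ s ρ hsc hΓ hs hρ
    simp only [Sm.sc, Bool.and_eq_true] at hsc
    apply Runs.seq
    refine (ihp Γ s ρ hsc.1 hΓ hs hρ).mono ?_
    rintro s1 t1 ⟨m1, r1, c1⟩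
    refine (ihq Γ s1 ρ hsc.2 hΓ (fun x hx => by rw [r1 x hx, hs x hx]) hρ).mono ?_
    rintro s2 t2 ⟨m2, r2, c2⟩
    refine ⟨?_, fun x hx => by rw [r2 x hx, r1 x hx], ?_⟩
    · rw [m2, m1]; rfl
    · simp only [Sm.cost]; omega
  | rep x v b ih =>
    intro Γ s ρ hsc hΓ hs hρ
    simp only [Sm.sc, Bool.and_eq_true, decide_eq_true_eq] at hsc
    obtain ⟨⟨⟨⟨⟨hxΓ, hx8⟩, hvΓ⟩, hv8⟩, hvB⟩, hb⟩ := hsc
    apply Runs.seq
    apply Runs.const h0
    refine Runs.loop (g x) (fun q s' τ =>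
      s'.mem = Nat.rec s.mem (fun i m' => b.ev w (Function.update ρ v i) m') q ∧
      (∀ y ∈ Γ, s'.reg y = s.reg y) ∧ s'.reg v = q ∧ τ ≤ q * (b.cost g + 4)) ?_ ?_ ?_ ?_
    · rintro q s' τ hq ⟨m', r', v', c'⟩
      have hxg : s'.reg x = g x := by rw [r' x hxΓ, hs x hxΓ, hρ x hx8]
      refine ⟨by rw [v', hxg]; exact hq, ?_⟩
      apply Runs.seq
      refine (ih (v :: Γ) s' (Function.update ρ v q) hb ?_ ?_ ?_).mono ?_
      · intro y hy
        rcases List.mem_cons.1 hy with rfl | hy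
        · exact hvB
        · exact hΓ y hy
      · intro y hy
        rcases List.mem_cons.1 hy with rfl | hy
        · rw [v', Function.update_self]
        · have hyv : y ≠ v := fun h => hvΓ (by rw [← h]; exact hy)
          rw [r' y hy, hs y hy, Function.update_of_ne hyv]
      · intro y hy
        rw [Function.update_of_ne (by omega), hρ y hy]
      rintro s1 t1 ⟨m1, r1, c1⟩
      apply Runs.seq
      apply Runs.op
      apply Runs.op
      refine ⟨?_, ?_, ?_, ?_⟩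
      · simp only [Op.exec]; rw [m1, m']
      · intro y hy
        have hyB := hΓ y hy
        have hyv : y ≠ v := by rintro rfl; exact hvΓ hy
        simp only [Op.exec]
        rw [Function.update_of_ne hyv, Function.update_of_ne (by omega), r1 y (by simp [hy]), r' y hy]
      · simp only [Op.exec]
        rw [Function.update_self, Function.update_of_ne (by omega), r1 v (by simp), v',
          Function.update_self]
        have := hg x hx8
        rw [Nat.mod_eq_of_lt h1, Nat.mod_eq_of_lt (by omega)]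
      · have : (q + 1) * (b.cost g + 4) = q * (b.cost g + 4) + (b.cost g + 4) := by ring
        omega
    · rintro s' τ ⟨m', r', v', c'⟩
      rw [v', r' x hxΓ, hs x hxΓ, hρ x hx8]; omega
    · refine ⟨rfl, ?_, by simp, by simp⟩
      intro y hy
      rw [St.set_reg_ne _ _ (by rintro rfl; exact hvΓ hy)]
    · rintro s' τ ⟨m', r', v', c'⟩
      refine ⟨?_, r', ?_⟩
      · rw [m']; simp only [Sm.ev]; rw [hρ x hx8]
      · simp only [Sm.cost]; omega

/-- The registers used as loop bounds. -/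
def Ex.bds : Ex → List ℕ
  | .c _ => []
  | .r _ => []
  | .ld a => a.bds
  | .add a b => a.bds ++ b.bds
  | .sub a b => a.bds ++ b.bds
  | .mul a b => a.bds ++ b.bds
  | .lt a b => a.bds ++ b.bds
  | .sum x _ b => x :: b.bds

def Sm.bds : Sm → List ℕ
  | .st a b => a.bds ++ b.bds
  | .seq p q => p.bds ++ q.bds
  | .rep x _ b => x :: b.bds

/-- A polynomial bound for the cost when all loop bounds are at most `N`. -/
theorem Ex.cost_le (e : Ex) : ∃ C a : ℕ, ∀ (g : ℕ → ℕ) (N : ℕ), (∀ x ∈ e.bds, g x ≤ N) →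
    e.cost g ≤ C * (N + 1) ^ a := by
  have key : ∀ (e₁ e₂ : Ex), (∃ C a : ℕ, ∀ (g : ℕ → ℕ) (N : ℕ), (∀ x ∈ e₁.bds, g x ≤ N) →
      e₁.cost g ≤ C * (N + 1) ^ a) → (∃ C a : ℕ, ∀ (g : ℕ → ℕ) (N : ℕ), (∀ x ∈ e₂.bds, g x ≤ N) →
      e₂.cost g ≤ C * (N + 1) ^ a) → ∃ C a : ℕ, ∀ (g : ℕ → ℕ) (N : ℕ),
      (∀ x ∈ e₁.bds ++ e₂.bds, g x ≤ N) → e₁.cost g + e₂.cost g + 3 ≤ C * (N + 1) ^ a := by
    rintro e₁ e₂ ⟨C₁, a₁, h₁⟩ ⟨C₂, a₂, h₂⟩
    refine ⟨C₁ + C₂ + 3, a₁ + a₂, fun g N hg => ?_⟩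
    have i₁ := h₁ g N (fun x hx => hg x (by simp [hx]))
    have i₂ := h₂ g N (fun x hx => hg x (by simp [hx]))
    have p₁ : (N + 1) ^ a₁ ≤ (N + 1) ^ (a₁ + a₂) := Nat.pow_le_pow_right (by omega) (by omega)
    have p₂ : (N + 1) ^ a₂ ≤ (N + 1) ^ (a₁ + a₂) := Nat.pow_le_pow_right (by omega) (by omega)
    have p₃ : 1 ≤ (N + 1) ^ (a₁ + a₂) := Nat.one_le_pow _ _ (by omega)
    calc e₁.cost g + e₂.cost g + 3 ≤ C₁ * (N + 1) ^ a₁ + C₂ * (N + 1) ^ a₂ + 3 := by omega
      _ ≤ C₁ * (N + 1) ^ (a₁ + a₂) + C₂ * (N + 1) ^ (a₁ + a₂) + 3 * (N + 1) ^ (a₁ + a₂) := by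
          gcongr
          omega
      _ = _ := by ring
  induction e with
  | c k => exact ⟨1, 0, fun g N _ => by simp [Ex.cost]⟩
  | r k => exact ⟨2, 0, fun g N _ => by simp [Ex.cost]⟩
  | ld a ih =>
    obtain ⟨C, k, h⟩ := ih
    refine ⟨C + 1, k, fun g N hg => ?_⟩
    have := h g N hg
    have p : 1 ≤ (N + 1) ^ k := Nat.one_le_pow _ _ (by omega)
    simp only [Ex.cost]
    nlinarith
  | add a b iha ihb =>
    obtain ⟨C, k, h⟩ := key a b iha ihb
    exact ⟨C, k, fun g N hg => by have := h g N hg; simp only [Ex.cost]; omega⟩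
  | sub a b iha ihb =>
    obtain ⟨C, k, h⟩ := key a b iha ihb
    exact ⟨C, k, fun g N hg => by have := h g N hg; simp only [Ex.cost]; omega⟩
  | mul a b iha ihb =>
    obtain ⟨C, k, h⟩ := key a b iha ihb
    exact ⟨C, k, fun g N hg => by have := h g N hg; simp only [Ex.cost]; omega⟩
  | lt a b iha ihb =>
    obtain ⟨C, k, h⟩ := key a b iha ihb
    exact ⟨C, k, fun g N hg => by have := h g N hg; simp only [Ex.cost]; omega⟩
  | sum x v b ih =>
    obtain ⟨C, k, h⟩ := ih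
    refine ⟨C + 9, k + 1, fun g N hg => ?_⟩
    have h1 := h g N (fun y hy => hg y (by simp [Ex.bds, hy]))
    have h2 : g x ≤ N := hg x (by simp [Ex.bds])
    have p : 1 ≤ (N + 1) ^ k := Nat.one_le_pow _ _ (by omega)
    simp only [Ex.cost]
    calc g x * (b.cost g + 5) + 4 ≤ N * (C * (N + 1) ^ k + 5 * (N + 1) ^ k) + 4 * (N + 1) ^ k := by
          gcongr <;> omega
      _ ≤ (N + 1) * ((C + 9) * (N + 1) ^ k) := by nlinarith
      _ = _ := by ring

theorem Sm.cost_le (p : Sm) : ∃ C a : ℕ, ∀ (g : ℕ → ℕ) (N : ℕ), (∀ x ∈ p.bds, g x ≤ N) →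
    p.cost g ≤ C * (N + 1) ^ a := by
  induction p with
  | st a b =>
    obtain ⟨C₁, a₁, h₁⟩ := a.cost_le
    obtain ⟨C₂, a₂, h₂⟩ := b.cost_le
    refine ⟨C₁ + C₂ + 1, a₁ + a₂, fun g N hg => ?_⟩
    have i₁ := h₁ g N (fun x hx => hg x (by simp [Sm.bds, hx]))
    have i₂ := h₂ g N (fun x hx => hg x (by simp [Sm.bds, hx]))
    have p₁ : (N + 1) ^ a₁ ≤ (N + 1) ^ (a₁ + a₂) := Nat.pow_le_pow_right (by omega) (by omega)
    have p₂ : (N + 1) ^ a₂ ≤ (N + 1) ^ (a₁ + a₂) := Nat.pow_le_pow_right (by omega) (by omega)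
    have p₃ : 1 ≤ (N + 1) ^ (a₁ + a₂) := Nat.one_le_pow _ _ (by omega)
    simp only [Sm.cost]
    calc a.cost g + b.cost g + 1 ≤ C₁ * (N + 1) ^ a₁ + C₂ * (N + 1) ^ a₂ + 1 := by omega
      _ ≤ C₁ * (N + 1) ^ (a₁ + a₂) + C₂ * (N + 1) ^ (a₁ + a₂) + 1 * (N + 1) ^ (a₁ + a₂) := by
          gcongr
          omega
      _ = _ := by ring
  | seq p q ihp ihq =>
    obtain ⟨C₁, a₁, h₁⟩ := ihp
    obtain ⟨C₂, a₂, h₂⟩ := ihq
    refine ⟨C₁ + C₂, a₁ + a₂, fun g N hg => ?_⟩
    have i₁ := h₁ g N (fun x hx => hg x (by simp [Sm.bds, hx]))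
    have i₂ := h₂ g N (fun x hx => hg x (by simp [Sm.bds, hx]))
    have p₁ : (N + 1) ^ a₁ ≤ (N + 1) ^ (a₁ + a₂) := Nat.pow_le_pow_right (by omega) (by omega)
    have p₂ : (N + 1) ^ a₂ ≤ (N + 1) ^ (a₁ + a₂) := Nat.pow_le_pow_right (by omega) (by omega)
    simp only [Sm.cost]
    calc p.cost g + q.cost g ≤ C₁ * (N + 1) ^ a₁ + C₂ * (N + 1) ^ a₂ := by omega
      _ ≤ C₁ * (N + 1) ^ (a₁ + a₂) + C₂ * (N + 1) ^ (a₁ + a₂) := by
          gcongr
      _ = _ := by ring
  | rep x v b ih =>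
    obtain ⟨C, k, h⟩ := ih
    refine ⟨C + 7, k + 1, fun g N hg => ?_⟩
    have h1 := h g N (fun y hy => hg y (by simp [Sm.bds, hy]))
    have h2 : g x ≤ N := hg x (by simp [Sm.bds])
    have p : 1 ≤ (N + 1) ^ k := Nat.one_le_pow _ _ (by omega)
    simp only [Sm.cost]
    calc g x * (b.cost g + 4) + 3 ≤ N * (C * (N + 1) ^ k + 4 * (N + 1) ^ k) + 3 * (N + 1) ^ k := by
          gcongr <;> omega
      _ ≤ (N + 1) * ((C + 7) * (N + 1) ^ k) := by nlinarith
      _ = _ := by ring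

end Pool.Agent.H641R2.DCS
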