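import Mathlib

/-!
Counting trees and forests: the recursion and its meaning.
-/

namespace Pool.Agent.H641R2.DCS

open Finset

section Rec

variable {R : Type*} [CommSemiring R] (n : ℕ) (A : ℕ → ℕ → Bool) (lab : ℕ → ℕ) (y : ℕ → R)

/-- Weighted number of branching walks of size `s + 1` rooted at `v` in class `i`. -/
def bT (i : ℕ) : ℕ → ℕ → R
  | 0, v => if lab v = 0 ∨ lab v = i + 1 then y v else 0
  | s + 1, v => ∑ u ∈ range n, if A v u then ∑ j : Fin (s + 1), bT i j u * bT i (s - j) v else 0
termination_by s => s
decreasing_by all_goals omega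

/-- Weighted number of families of `i` branching walks of total size `t`. -/
def aT : ℕ → ℕ → R
  | 0, t => if t = 0 then 1 else 0
  | i + 1, t => ∑ s ∈ range n, ∑ v ∈ range n,
      if s < t then bT n A lab y i s v * aT i (t - 1 - s) else 0

/-- Weighted number of solutions of total size `t`. -/
def hT (k : ℕ) : ℕ → R
  | 0 => aT n A lab y k 0
  | t + 1 => hT k t * (∑ v ∈ range n, if lab v = 0 then y v else 0) + aT n A lab y k (t + 1)

variable {S : Type*} [CommSemiring S]

theorem map_bT (f : R →+* S) (i : ℕ) : ∀ s v, f (bT n A lab y i s v) =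
    bT n A lab (fun v => f (y v)) i s v := by
  intro s
  induction s using Nat.strong_induction_on with
  | _ s ih =>
    intro v
    cases s with
    | zero => simp only [bT]; split_ifs <;> simp
    | succ s =>
      simp only [bT, map_sum]
      refine sum_congr rfl fun u _ => ?_
      split_ifs
      · simp only [map_sum, map_mul]
        refine sum_congr rfl fun j _ => ?_
        rw [ih j (by omega), ih (s - j) (by omega)]
      · simp

theorem map_aT (f : R →+* S) (i : ℕ) : ∀ t, f (aT n A lab y i t) =
    aT n A lab (fun v => f (y v)) i t := by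
  induction i with
  | zero => intro t; simp only [aT]; split_ifs <;> simp
  | succ i ih =>
    intro t
    simp only [aT, map_sum]
    refine sum_congr rfl fun s _ => sum_congr rfl fun v _ => ?_
    split_ifs
    · rw [map_mul, map_bT, ih]
    · simp

theorem map_hT (f : R →+* S) (k : ℕ) (t : ℕ) : f (hT n A lab y k t) =
    hT n A lab (fun v => f (y v)) k t := by
  induction t with
  | zero => simp only [hT, map_aT]
  | succ t ih =>
    simp only [hT, map_add, map_mul, map_sum, ih, map_aT]
    congr 2
    refine sum_congr rfl fun v _ => ?_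
    split_ifs <;> simp

end Rec

section Bound

theorem bT_le (n : ℕ) (A : ℕ → ℕ → Bool) (lab : ℕ → ℕ) (y : ℕ → ℕ) (hy : ∀ v, y v ≤ 1) (i : ℕ) :
    ∀ s v, bT n A lab y i s v ≤ n ^ s * catalan s := by
  intro s
  induction s using Nat.strong_induction_on with
  | _ s ih =>
    intro v
    cases s with
    | zero =>
      simp only [bT]
      have := hy v
      split_ifs <;> simp; omega
    | succ s =>
      simp only [bT]
      calc _ ≤ ∑ _u ∈ range n, ∑ j : Fin (s + 1), n ^ s * (catalan j * catalan (s - j)) := by
            refine sum_le_sum fun u _ => ?_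
            split_ifs
            · refine sum_le_sum fun j _ => ?_
              calc _ ≤ (n ^ (j : ℕ) * catalan j) * (n ^ (s - j) * catalan (s - j)) :=
                    Nat.mul_le_mul (ih j (by omega) u) (ih (s - j) (by omega) v)
                _ = n ^ ((j : ℕ) + (s - j)) * (catalan j * catalan (s - j)) := by
                    rw [pow_add]; ring
                _ = _ := by
                    congr 2; omega
            · exact Nat.zero_le _
        _ = n ^ (s + 1) * catalan (s + 1) := by
            rw [sum_const, card_range, smul_eq_mul, ← mul_sum, catalan_succ, pow_succ]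
            ring

theorem catalan_le (s : ℕ) : catalan s ≤ 4 ^ s := by
  rw [catalan_eq_centralBinom_div]
  refine (Nat.div_le_self _ _).trans ?_
  rw [Nat.centralBinom_eq_two_mul_choose]
  calc (2 * s).choose s ≤ 2 ^ (2 * s) := Nat.choose_le_two_pow _ _
    _ = 4 ^ s := by rw [pow_mul]; norm_num

theorem bT_le' (n : ℕ) (A : ℕ → ℕ → Bool) (lab : ℕ → ℕ) (y : ℕ → ℕ) (hy : ∀ v, y v ≤ 1) (i : ℕ)
    (s v : ℕ) : bT n A lab y i s v ≤ (4 * n) ^ s := by
  refine (bT_le n A lab y hy i s v).trans ?_
  rw [mul_pow, mul_comm]
  exact Nat.mul_le_mul_right _ (catalan_le s)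

theorem aT_le (n : ℕ) (hn : 1 ≤ n) (A : ℕ → ℕ → Bool) (lab : ℕ → ℕ) (y : ℕ → ℕ)
    (hy : ∀ v, y v ≤ 1) (i : ℕ) : ∀ t, t ≤ n → aT n A lab y i t ≤ n ^ i * (4 * n) ^ t := by
  induction i with
  | zero =>
    intro t _
    simp only [aT]
    split_ifs with h
    · subst h; simp
    · exact Nat.zero_le _
  | succ i ih =>
    intro t ht
    simp only [aT]
    have hsub : range t ⊆ range n := range_subset_range.2 ht
    calc _ = ∑ s ∈ range t, ∑ v ∈ range n,
          (if s < t then bT n A lab y i s v * aT n A lab y i (t - 1 - s) else 0) := by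
          symm
          apply sum_subset hsub
          intro s _ hs
          rw [mem_range, not_lt] at hs
          exact sum_eq_zero fun v _ => if_neg (by omega)
      _ ≤ ∑ s ∈ range t, ∑ _v ∈ range n, (4 * n) ^ s * (n ^ i * (4 * n) ^ (t - 1 - s)) := by
          refine sum_le_sum fun s _ => sum_le_sum fun v _ => ?_
          split_ifs
          · exact Nat.mul_le_mul (bT_le' n A lab y hy i s v) (ih _ (by omega))
          · exact Nat.zero_le _
      _ = ∑ s ∈ range t, n * (n ^ i * (4 * n) ^ (t - 1)) := by
          refine sum_congr rfl fun s hs => ?_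
          rw [mem_range] at hs
          rw [sum_const, card_range, smul_eq_mul]
          have : (4 * n) ^ s * (4 * n) ^ (t - 1 - s) = (4 * n) ^ (t - 1) := by
            rw [← pow_add]; congr 1; omega
          calc n * ((4 * n) ^ s * (n ^ i * (4 * n) ^ (t - 1 - s)))
              = n * (n ^ i * ((4 * n) ^ s * (4 * n) ^ (t - 1 - s))) := by ring
            _ = _ := by rw [this]
      _ = t * (n * (n ^ i * (4 * n) ^ (t - 1))) := by rw [sum_const, card_range, smul_eq_mul]
      _ ≤ n ^ (i + 1) * (4 * n) ^ t := by
          cases t with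
          | zero => simp
          | succ t =>
            simp only [Nat.add_sub_cancel]
            have h1 : t + 1 ≤ 4 * n := by omega
            calc (t + 1) * (n * (n ^ i * (4 * n) ^ t)) ≤ (4 * n) * (n * (n ^ i * (4 * n) ^ t)) :=
                  Nat.mul_le_mul_right _ h1
              _ = _ := by rw [pow_succ, pow_succ]; ring

theorem hT_le (n : ℕ) (hn : 1 ≤ n) (A : ℕ → ℕ → Bool) (lab : ℕ → ℕ) (y : ℕ → ℕ)
    (hy : ∀ v, y v ≤ 1) (k : ℕ) : ∀ t, t ≤ n → hT n A lab y k t ≤ (t + 1) * (n ^ k * (4 * n) ^ t) := by
  intro t
  induction t with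
  | zero =>
    intro _
    simp only [hT]
    have := aT_le n hn A lab y hy k 0 (by omega)
    simpa using this
  | succ t ih =>
    intro ht
    simp only [hT]
    have h1 := ih (by omega)
    have h2 := aT_le n hn A lab y hy k (t + 1) ht
    have h3 : (∑ v ∈ range n, if lab v = 0 then y v else 0) ≤ n := by
      calc _ ≤ ∑ _v ∈ range n, 1 := sum_le_sum fun v _ => by
            have := hy v
            split_ifs <;> omega
        _ = n := by simp
    calc _ ≤ ((t + 1) * (n ^ k * (4 * n) ^ t)) * n + n ^ k * (4 * n) ^ (t + 1) :=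
          Nat.add_le_add (Nat.mul_le_mul h1 h3) h2
      _ ≤ ((t + 1) * (n ^ k * (4 * n) ^ t)) * (4 * n) + n ^ k * (4 * n) ^ (t + 1) := by
          have : n ≤ 4 * n := by omega
          gcongr
      _ = _ := by rw [pow_succ]; ring

end Bound

section Poly

open MvPolynomial

variable {n : ℕ}

/-- The multilinear monomial of a set. -/
noncomputable def δ (S : Finset (Fin n)) : Fin n →₀ ℕ :=
  Finsupp.equivFunOnFinite.symm fun v => if v ∈ S then 1 else 0

theorem δ_apply (S : Finset (Fin n)) (v : Fin n) : δ S v = if v ∈ S then 1 else 0 := rfl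

theorem le_δ {α : Fin n →₀ ℕ} {S : Finset (Fin n)} (h : α ≤ δ S) :
    α = δ α.support ∧ α.support ⊆ S := by
  constructor
  · ext v
    rw [δ_apply]
    have := h v
    rw [δ_apply] at this
    split_ifs with hv
    · rw [Finsupp.mem_support_iff] at hv
      split_ifs at this <;> omega
    · rw [Finsupp.mem_support_iff, not_not] at hv
      exact hv
  · intro v hv
    have := h v
    rw [δ_apply] at this
    rw [Finsupp.mem_support_iff] at hv
    by_contra hv'
    rw [if_neg hv'] at this
    omega

theorem δ_add {A S : Finset (Fin n)} (h : A ⊆ S) : δ A + δ (S \ A) = δ S := by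
  ext v
  rw [Finsupp.add_apply, δ_apply, δ_apply, δ_apply]
  by_cases hA : v ∈ A
  · simp [hA, h hA]
  · simp [hA]

/-- Nonvanishing of the multilinear coefficient of a product. -/
theorem coeff_mul_ne (p q : MvPolynomial (Fin n) ℕ) (S : Finset (Fin n)) :
    coeff (δ S) (p * q) ≠ 0 ↔ ∃ A ⊆ S, coeff (δ A) p ≠ 0 ∧ coeff (δ (S \ A)) q ≠ 0 := by
  classical
  rw [coeff_mul, Ne, sum_eq_zero_iff]
  push Not
  constructor
  · rintro ⟨⟨α, β⟩, hab, hne⟩
    rw [HasAntidiagonal.mem_antidiagonal] at hab
    simp only at hab hne
    have hα : α ≤ δ S := by rw [← hab]; exact le_self_add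
    obtain ⟨e, hs⟩ := le_δ hα
    have hβ : β = δ (S \ α.support) := by
      have := δ_add hs
      rw [← hab, ← e] at this
      exact (add_left_cancel this).symm
    refine ⟨α.support, hs, ?_, ?_⟩
    · rw [← e]; exact left_ne_zero_of_mul hne
    · rw [← hβ]; exact right_ne_zero_of_mul hne
  · rintro ⟨A, hA, h1, h2⟩
    exact ⟨(δ A, δ (S \ A)), by rw [HasAntidiagonal.mem_antidiagonal]; exact δ_add hA,
      mul_ne_zero h1 h2⟩

theorem coeff_sum_ne {ι : Type*} (s : Finset ι) (f : ι → MvPolynomial (Fin n) ℕ)
    (α : Fin n →₀ ℕ) : coeff α (∑ i ∈ s, f i) ≠ 0 ↔ ∃ i ∈ s, coeff α (f i) ≠ 0 := by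
  rw [coeff_sum, Ne, sum_eq_zero_iff]
  push Not
  rfl

/-- The variable of a vertex. -/
noncomputable def Y (n : ℕ) (v : ℕ) : MvPolynomial (Fin n) ℕ :=
  if h : v < n then X ⟨v, h⟩ else 0

theorem Y_coe (v : Fin n) : Y n (v : ℕ) = X v := by
  simp [Y]

theorem coeff_X_ne (v : Fin n) (S : Finset (Fin n)) :
    coeff (δ S) (X v : MvPolynomial (Fin n) ℕ) ≠ 0 ↔ S = {v} := by
  rw [coeff_X]
  have : (Finsupp.single v 1 = δ S) ↔ S = {v} := by
    constructor
    · intro h
      ext u
      have := DFunLike.congr_fun h u
      rw [δ_apply, Finsupp.single_apply] at this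
      rw [mem_singleton]
      constructor
      · intro hu
        rw [if_pos hu] at this
        by_contra hne
        rw [if_neg (fun e => hne e.symm)] at this
        omega
      · rintro rfl
        rw [if_pos rfl] at this
        by_contra hne
        rw [if_neg hne] at this
        omega
    · rintro rfl
      ext u
      rw [δ_apply, Finsupp.single_apply]
      simp [eq_comm]
  simp [this]

theorem isHomogeneous_Y (v : ℕ) : (Y n v).IsHomogeneous 1 := by
  unfold Y
  split_ifs
  · exact isHomogeneous_X _ _
  · exact isHomogeneous_zero _ _ _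

variable (A : ℕ → ℕ → Bool) (lab : ℕ → ℕ)

theorem hom_bT (i : ℕ) : ∀ s v, (bT n A lab (Y n) i s v).IsHomogeneous (s + 1) := by
  intro s
  induction s using Nat.strong_induction_on with
  | _ s ih =>
    intro v
    cases s with
    | zero =>
      simp only [bT]
      split_ifs
      · exact isHomogeneous_Y v
      · exact isHomogeneous_zero _ _ _
    | succ s =>
      simp only [bT]
      refine IsHomogeneous.sum _ _ _ fun u _ => ?_
      split_ifs
      · refine IsHomogeneous.sum _ _ _ fun j _ => ?_
        have := (ih j (by omega) u).mul (ih (s - j) (by omega) v)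
        convert this using 1
        omega
      · exact isHomogeneous_zero _ _ _

theorem hom_aT (i : ℕ) : ∀ t, (aT n A lab (Y n) i t).IsHomogeneous t := by
  induction i with
  | zero =>
    intro t
    simp only [aT]
    split_ifs with h
    · subst h; exact isHomogeneous_one _ _
    · exact isHomogeneous_zero _ _ _
  | succ i ih =>
    intro t
    simp only [aT]
    refine IsHomogeneous.sum _ _ _ fun s _ => IsHomogeneous.sum _ _ _ fun v _ => ?_
    split_ifs with h
    · have := (hom_bT A lab i s v).mul (ih (t - 1 - s))
      convert this using 1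
      omega
    · exact isHomogeneous_zero _ _ _

theorem hom_hT (k : ℕ) : ∀ t, (hT n A lab (Y n) k t).IsHomogeneous t := by
  intro t
  induction t with
  | zero => simp only [hT]; exact hom_aT A lab k 0
  | succ t ih =>
    simp only [hT]
    refine IsHomogeneous.add ?_ (hom_aT A lab k (t + 1))
    refine ih.mul (IsHomogeneous.sum _ _ _ fun v _ => ?_)
    split_ifs
    · exact isHomogeneous_Y v
    · exact isHomogeneous_zero _ _ _

/-- Inclusion–exclusion. -/
theorem incl_excl (p : MvPolynomial (Fin n) ℕ) (hp : p.IsHomogeneous n) :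
    ∑ X : Finset (Fin n), (-1 : ℤ) ^ (n - X.card) *
      ((eval (fun v => if v ∈ X then 1 else 0) p : ℕ) : ℤ) = (coeff (δ univ) p : ℕ) := by
  classical
  have h1 : ∀ X : Finset (Fin n), (eval (fun v => if v ∈ X then 1 else 0) p : ℕ) =
      ∑ α ∈ p.support, coeff α p * if α.support ⊆ X then 1 else 0 := by
    intro X
    rw [eval_eq']
    refine sum_congr rfl fun α _ => ?_
    congr 1
    split_ifs with h
    · refine prod_eq_one fun v _ => ?_
      by_cases hv : v ∈ X
      · simp [hv]
      · have : α v = 0 := by
          by_contra hne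
          exact hv (h (Finsupp.mem_support_iff.2 hne))
        simp [this]
    · obtain ⟨v, hv, hvX⟩ := not_subset.1 h
      rw [Finsupp.mem_support_iff] at hv
      refine prod_eq_zero (mem_univ v) ?_
      rw [if_neg hvX]
      exact zero_pow hv
  have h2 : ∀ T : Finset (Fin n), ∑ X : Finset (Fin n), (-1 : ℤ) ^ (n - X.card) *
      (if T ⊆ X then 1 else 0) = if T = univ then 1 else 0 := by
    intro T
    have e : ∑ X : Finset (Fin n), (-1 : ℤ) ^ (n - X.card) * (if T ⊆ X then 1 else 0) =
        ∑ X : Finset (Fin n), (-1 : ℤ) ^ X.card * (if X ⊆ Tᶜ then 1 else 0) := by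
      refine Fintype.sum_equiv (Function.Involutive.toPerm
        (compl : Finset (Fin n) → Finset (Fin n)) compl_involutive) _ _ fun X => ?_
      simp only [Function.Involutive.coe_toPerm, card_compl, Fintype.card_fin]
      congr 1
      simp only [compl_subset_compl]
    rw [e]
    simp only [mul_ite, mul_one, mul_zero]
    rw [← sum_filter]
    have : (univ.filter fun X => X ⊆ Tᶜ) = Tᶜ.powerset := by ext X; simp
    rw [this, sum_powerset_neg_one_pow_card]
    simp
  calc _ = ∑ X : Finset (Fin n), ∑ α ∈ p.support, ((coeff α p : ℕ) : ℤ) *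
        ((-1 : ℤ) ^ (n - X.card) * (if α.support ⊆ X then 1 else 0)) := by
        refine sum_congr rfl fun X _ => ?_
        rw [h1 X, Nat.cast_sum, mul_sum]
        refine sum_congr rfl fun α _ => ?_
        push_cast
        ring
    _ = ∑ α ∈ p.support, ((coeff α p : ℕ) : ℤ) * (if α.support = univ then 1 else 0) := by
        rw [sum_comm]
        refine sum_congr rfl fun α _ => ?_
        rw [← mul_sum, h2]
    _ = ∑ α ∈ p.support, if α = δ univ then ((coeff α p : ℕ) : ℤ) else 0 := by
        refine sum_congr rfl fun α hα => ?_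
        have hdeg : ∑ v, α v = n := by
          have := hp (mem_support_iff.1 hα)
          rw [Finsupp.weight_apply, Finsupp.sum_fintype _ _ (by simp)] at this
          simpa using this
        have : α.support = univ ↔ α = δ univ := by
          constructor
          · intro h
            have h1 : ∀ v, 1 ≤ α v := fun v => by
              have : v ∈ α.support := by rw [h]; exact mem_univ v
              rw [Finsupp.mem_support_iff] at this
              omega
            have h2 : ∀ v ∈ univ, (1 : ℕ) = α v := by
              apply (sum_eq_sum_iff_of_le (fun v _ => h1 v)).1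
              rw [hdeg]; simp
            ext v
            rw [δ_apply, if_pos (mem_univ v), ← h2 v (mem_univ v)]
          · rintro rfl
            ext v
            simp [Finsupp.mem_support_iff, δ_apply]
        by_cases h : α = δ univ
        · rw [if_pos h, if_pos (this.2 h), mul_one]
        · rw [if_neg h, if_neg (fun h' => h (this.1 h')), mul_zero]
    _ = _ := by
        rw [sum_ite_eq' p.support (δ univ)]
        split_ifs with h
        · rfl
        · rw [notMem_support_iff.1 h]; rfl

end Poly

end Pool.Agent.H641R2.DCS
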