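import Pool.Agent.H641R2.DCS.Lang
import Pool.Agent.H641R2.DCS.Math

/-!
The program (phases for one vertex subset) and its meaning.
-/

namespace Pool.Agent.H641R2.DCS

open Pool.Agent.H588R2 Finset

/-- Cell `i` of block `b`; blocks have length `(n + 1) ^ 2`. -/
def cell (n : ℕ) (m : ℕ → ℕ) (b i : ℕ) : ℕ := m (b * (n + 1) ^ 2 + i)

def blk (b : ℕ) (e : Ex) : Ex := .add (.mul (.c b) (.r 4)) e
def rd (b : ℕ) (e : Ex) : Ex := .ld (blk b e)
def ix (a b : Ex) : Ex := .add (.mul a (.r 2)) b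
def wr (b : ℕ) (e v : Ex) : Sm := .st (blk b e) v

/-- The register file during the main part. -/
structure Env (w n k : ℕ) (ρ : ℕ → ℕ) : Prop where
  h0 : ρ 0 = n
  h1 : ρ 1 = k
  h2 : ρ 2 = n + 1
  h4 : ρ 4 = (n + 1) ^ 2
  hw : 10 * (n + 1) ^ 2 < 2 ^ w
  hk : k ≤ n

section Eval

variable {w n k : ℕ} {ρ m : ℕ → ℕ}

theorem Env.upd (E : Env w n k ρ) {v : ℕ} (hv : 8 ≤ v) (i : ℕ) :
    Env w n k (Function.update ρ v i) :=
  ⟨by rw [Function.update_of_ne (by omega), E.h0], by rw [Function.update_of_ne (by omega), E.h1],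
    by rw [Function.update_of_ne (by omega), E.h2], by rw [Function.update_of_ne (by omega), E.h4],
    E.hw, E.hk⟩

theorem Env.one (E : Env w n k ρ) : 10 < 2 ^ w := by
  have := E.hw
  have : 1 ≤ (n + 1) ^ 2 := Nat.one_le_pow _ _ (by omega)
  omega

theorem Env.nlt (E : Env w n k ρ) : n + 1 < 2 ^ w := by
  have := E.hw
  have : n + 1 ≤ (n + 1) ^ 2 := by nlinarith
  omega

theorem ev_c {c : ℕ} (h : c < 2 ^ w) : (Ex.c c).ev w ρ m = c := Nat.mod_eq_of_lt h

theorem ev_r {x y : ℕ} (hx : ρ x = y) (h : y < 2 ^ w) : (Ex.r x).ev w ρ m = y := by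
  simp only [Ex.ev, hx, Nat.mod_eq_of_lt h]

theorem ev_add {a b : Ex} {x y : ℕ} (ha : a.ev w ρ m = x) (hb : b.ev w ρ m = y)
    (h : x + y < 2 ^ w) : (Ex.add a b).ev w ρ m = x + y := by
  simp only [Ex.ev, ha, hb, Nat.mod_eq_of_lt h]

theorem ev_sub {a b : Ex} {x y : ℕ} (ha : a.ev w ρ m = x) (hb : b.ev w ρ m = y)
    (h : x - y < 2 ^ w) : (Ex.sub a b).ev w ρ m = x - y := by
  simp only [Ex.ev, ha, hb, Nat.mod_eq_of_lt h]

theorem ev_mul {a b : Ex} {x y : ℕ} (ha : a.ev w ρ m = x) (hb : b.ev w ρ m = y)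
    (h : x * y < 2 ^ w) : (Ex.mul a b).ev w ρ m = x * y := by
  simp only [Ex.ev, ha, hb, Nat.mod_eq_of_lt h]

theorem ev_lt {a b : Ex} {x y : ℕ} (ha : a.ev w ρ m = x) (hb : b.ev w ρ m = y) :
    (Ex.lt a b).ev w ρ m = if x < y then 1 else 0 := by
  simp only [Ex.ev, ha, hb]

theorem ev_blk (E : Env w n k ρ) {b : ℕ} {e : Ex} {i : ℕ} (hb : b ≤ 9) (he : e.ev w ρ m = i)
    (hi : i < (n + 1) ^ 2) : (blk b e).ev w ρ m = b * (n + 1) ^ 2 + i := by
  have hw := E.hw
  have h10 := E.one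
  have hb' : b * (n + 1) ^ 2 ≤ 9 * (n + 1) ^ 2 := Nat.mul_le_mul_right _ hb
  refine ev_add (ev_mul (ev_c (by omega)) (ev_r E.h4 (by omega)) (by omega)) he (by omega)

theorem ev_rd (E : Env w n k ρ) {b : ℕ} {e : Ex} {i : ℕ} (hb : b ≤ 9) (he : e.ev w ρ m = i)
    (hi : i < (n + 1) ^ 2) : (rd b e).ev w ρ m = cell n m b i % 2 ^ w := by
  simp only [rd, Ex.ev]
  rw [show (blk b e).ev w ρ m = _ from ev_blk E hb he hi]
  rfl

theorem ev_rd' (E : Env w n k ρ) {b : ℕ} {e : Ex} {i x : ℕ} (hb : b ≤ 9) (he : e.ev w ρ m = i)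
    (hi : i < (n + 1) ^ 2) (hx : cell n m b i = x) (hlt : x < 2 ^ w) : (rd b e).ev w ρ m = x := by
  rw [ev_rd E hb he hi, hx, Nat.mod_eq_of_lt hlt]

theorem ix_lt {n x y : ℕ} (hx : x ≤ n) (hy : y ≤ n) : x * (n + 1) + y < (n + 1) ^ 2 := by
  nlinarith

theorem ix_inj {n x y x' y' : ℕ} (hy : y ≤ n) (hy' : y' ≤ n)
    (h : x * (n + 1) + y = x' * (n + 1) + y') : x = x' ∧ y = y' := by
  have hp : 0 < n + 1 := by omega
  have h1 : (y + (n + 1) * x) / (n + 1) = x := by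
    rw [Nat.add_mul_div_left _ _ hp, Nat.div_eq_of_lt (by omega), zero_add]
  have h2 : (y' + (n + 1) * x') / (n + 1) = x' := by
    rw [Nat.add_mul_div_left _ _ hp, Nat.div_eq_of_lt (by omega), zero_add]
  have e : x = x' := by
    rw [← h1, ← h2]; congr 1; linarith
  subst e
  exact ⟨rfl, by omega⟩

theorem ev_ix (E : Env w n k ρ) {a b : Ex} {x y : ℕ} (ha : a.ev w ρ m = x) (hb : b.ev w ρ m = y)
    (hx : x ≤ n) (hy : y ≤ n) : (ix a b).ev w ρ m = x * (n + 1) + y := by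
  have := ix_lt hx hy
  have := E.hw
  exact ev_add (ev_mul ha (ev_r E.h2 E.nlt) (by omega)) hb (by omega)

theorem cell_wr (E : Env w n k ρ) {b : ℕ} {e v : Ex} {i : ℕ} (hb : b ≤ 9) (he : e.ev w ρ m = i)
    (hi : i < (n + 1) ^ 2) {b' i' : ℕ} (hi' : i' < (n + 1) ^ 2) :
    cell n ((wr b e v).ev w ρ m) b' i' = if b' = b ∧ i' = i then v.ev w ρ m else cell n m b' i' := by
  simp only [wr, Sm.ev]
  rw [ev_blk E hb he hi]
  unfold cell
  rw [Function.update_apply]
  have : (b' * (n + 1) ^ 2 + i' = b * (n + 1) ^ 2 + i) ↔ (b' = b ∧ i' = i) := by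
    constructor
    · intro h
      have hp : 0 < (n + 1) ^ 2 := by positivity
      have h1 : (i' + (n + 1) ^ 2 * b') / (n + 1) ^ 2 = b' := by
        rw [Nat.add_mul_div_left _ _ hp, Nat.div_eq_of_lt hi', zero_add]
      have h2 : (i + (n + 1) ^ 2 * b) / (n + 1) ^ 2 = b := by
        rw [Nat.add_mul_div_left _ _ hp, Nat.div_eq_of_lt hi, zero_add]
      have e : b' = b := by
        rw [← h1, ← h2]; congr 1; linarith
      subst e
      exact ⟨rfl, by omega⟩
    · rintro ⟨rfl, rfl⟩; rfl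
  simp only [this]

theorem cell_wr_self (E : Env w n k ρ) {b : ℕ} {e v : Ex} {i : ℕ} (hb : b ≤ 9)
    (he : e.ev w ρ m = i) (hi : i < (n + 1) ^ 2) :
    cell n ((wr b e v).ev w ρ m) b i = v.ev w ρ m := by
  rw [cell_wr E hb he hi hi, if_pos ⟨rfl, rfl⟩]

theorem cell_wr_ne (E : Env w n k ρ) {b : ℕ} {e v : Ex} {i : ℕ} (hb : b ≤ 9)
    (he : e.ev w ρ m = i) (hi : i < (n + 1) ^ 2) {b' i' : ℕ} (hi' : i' < (n + 1) ^ 2)
    (hne : b' ≠ b ∨ i' ≠ i) :
    cell n ((wr b e v).ev w ρ m) b' i' = cell n m b' i' := by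
  rw [cell_wr E hb he hi hi', if_neg]
  rintro ⟨h1, h2⟩
  rcases hne with h | h
  · exact h h1
  · exact h h2

/-! Residues -/

theorem cast_c (c : ℕ) : (((Ex.c c).ev w ρ m : ℕ) : ZMod (2 ^ w)) = c := by
  simp only [Ex.ev]; rw [ZMod.natCast_mod]

theorem cast_add (a b : Ex) : (((Ex.add a b).ev w ρ m : ℕ) : ZMod (2 ^ w)) =
    (a.ev w ρ m : ℕ) + (b.ev w ρ m : ℕ) := by
  simp only [Ex.ev]; rw [ZMod.natCast_mod, Nat.cast_add]

theorem cast_mul (a b : Ex) : (((Ex.mul a b).ev w ρ m : ℕ) : ZMod (2 ^ w)) =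
    (a.ev w ρ m : ℕ) * (b.ev w ρ m : ℕ) := by
  simp only [Ex.ev]; rw [ZMod.natCast_mod, Nat.cast_mul]

theorem cast_sum (x v : ℕ) (b : Ex) : (((Ex.sum x v b).ev w ρ m : ℕ) : ZMod (2 ^ w)) =
    ∑ i ∈ range (ρ x), ((b.ev w (Function.update ρ v i) m : ℕ) : ZMod (2 ^ w)) := by
  simp only [Ex.ev]; rw [ZMod.natCast_mod, Nat.cast_sum]

theorem cast_rd (E : Env w n k ρ) {b : ℕ} {e : Ex} {i : ℕ} (hb : b ≤ 9) (he : e.ev w ρ m = i)
    (hi : i < (n + 1) ^ 2) : (((rd b e).ev w ρ m : ℕ) : ZMod (2 ^ w)) = (cell n m b i : ℕ) := by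
  rw [ev_rd E hb he hi, ZMod.natCast_mod]

theorem rep_inv {x v : ℕ} {b : Sm} (P : ℕ → (ℕ → ℕ) → Prop) (h0 : P 0 m)
    (hs : ∀ i < ρ x, ∀ m', P i m' → P (i + 1) (b.ev w (Function.update ρ v i) m')) :
    P (ρ x) ((Sm.rep x v b).ev w ρ m) := by
  simp only [Sm.ev]
  have : ∀ q ≤ ρ x, P q (Nat.rec m (fun i m' => b.ev w (Function.update ρ v i) m') q) := by
    intro q
    induction q with
    | zero => intro _; exact h0
    | succ q ih => intro hq; exact hs q (by omega) _ (ih (by omega))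
  exact this _ le_rfl

end Eval

/-- `m'` agrees with `m` outside the blocks in `S`. -/
def Frame (n : ℕ) (S : List ℕ) (m m' : ℕ → ℕ) : Prop :=
  ∀ b i, b ∉ S → i < (n + 1) ^ 2 → cell n m' b i = cell n m b i

theorem Frame.refl (n : ℕ) (S : List ℕ) (m : ℕ → ℕ) : Frame n S m m := fun _ _ _ _ => rfl

theorem Frame.trans {n : ℕ} {S : List ℕ} {m m' m'' : ℕ → ℕ} (h : Frame n S m m')
    (h' : Frame n S m' m'') : Frame n S m m'' :=
  fun b i hb hi => (h' b i hb hi).trans (h b i hb hi)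

theorem Frame.mono {n : ℕ} {S T : List ℕ} {m m' : ℕ → ℕ} (h : Frame n S m m')
    (hST : S ⊆ T) : Frame n T m m' :=
  fun b i hb hi => h b i (fun hb' => hb (hST hb')) hi

theorem Frame.wr {w n k : ℕ} {ρ m m' : ℕ → ℕ} {S : List ℕ} (h : Frame n S m m')
    (E : Env w n k ρ) {b : ℕ} {e v : Ex} {i : ℕ} (hb : b ≤ 9)
    (he : e.ev w ρ m' = i) (hi : i < (n + 1) ^ 2) (hbS : b ∈ S) :
    Frame n S m ((wr b e v).ev w ρ m') := by
  intro b' i' hb' hi'
  rw [cell_wr_ne E hb he hi hi' (Or.inl (by rintro rfl; exact hb' hbS))]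
  exact h b' i' hb' hi'

/-! ### Powers of two -/

def pPow : Sm := .rep 2 10 (wr 1 (.r 10) (.add (.lt (.r 10) (.c 1))
  (.mul (.c 2) (.mul (.lt (.c 0) (.r 10)) (rd 1 (.sub (.r 10) (.c 1)))))))

theorem le_sq (n : ℕ) : n + 1 ≤ (n + 1) ^ 2 := by nlinarith

theorem pPow_ev {w n k : ℕ} {ρ m : ℕ → ℕ} (E : Env w n k ρ) (h2 : 2 ^ n < 2 ^ w) :
    Frame n [1] m (pPow.ev w ρ m) ∧ ∀ v ≤ n, cell n (pPow.ev w ρ m) 1 v = 2 ^ v := by
  have hn := E.nlt
  have h10 := E.one
  have hsq := le_sq n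
  have := rep_inv (w := w) (ρ := ρ) (m := m) (x := 2) (v := 10) (b := wr 1 (.r 10) (.add (.lt (.r 10) (.c 1))
    (.mul (.c 2) (.mul (.lt (.c 0) (.r 10)) (rd 1 (.sub (.r 10) (.c 1)))))))
    (fun q m' => Frame n [1] m m' ∧ ∀ v < q, cell n m' 1 v = 2 ^ v)
    ⟨Frame.refl _ _ _, by simp⟩ ?_
  · rw [E.h2] at this
    exact ⟨this.1, fun v hv => this.2 v (by omega)⟩
  · rintro q hq m' ⟨hF, hP⟩
    rw [E.h2] at hq
    have E' := E.upd (v := 10) (by omega) q
    have er : (Ex.r 10).ev w (Function.update ρ 10 q) m' = q := ev_r (by simp) (by omega)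
    have he := er
    have hpw : ∀ j ≤ n, 2 ^ j < 2 ^ w := fun j hj =>
      lt_of_le_of_lt (Nat.pow_le_pow_right (by omega) hj) h2
    refine ⟨hF.wr E' (by omega) he (by omega) (by simp), fun v hv => ?_⟩
    by_cases hvq : v = q
    · subst hvq
      rw [cell_wr_self E' (by omega) he (by omega)]
      rcases Nat.eq_zero_or_pos v with h0 | h0
      · subst h0
        have e1 : (Ex.lt (.r 10) (.c 1)).ev w (Function.update ρ 10 0) m' = 1 := by
          rw [ev_lt er (ev_c (by omega))]; simp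
        have e2 : (Ex.lt (.c 0) (.r 10)).ev w (Function.update ρ 10 0) m' = 0 := by
          rw [ev_lt (ev_c (by omega)) er]; simp
        rw [ev_add (x := 1) (y := 0) e1 ?_ (by omega)]
        · simp
        · refine (ev_mul (x := 2) (y := 0) (ev_c (by omega)) ?_ (by omega)).trans (by simp)
          exact (ev_mul (x := 0) e2 rfl (by simp)).trans (by simp)
      · have e1 : (Ex.lt (.r 10) (.c 1)).ev w (Function.update ρ 10 v) m' = 0 := by
          rw [ev_lt er (ev_c (by omega)), if_neg (by omega)]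
        have e2 : (Ex.lt (.c 0) (.r 10)).ev w (Function.update ρ 10 v) m' = 1 := by
          rw [ev_lt (ev_c (by omega)) er, if_pos h0]
        have e3 : (rd 1 (.sub (.r 10) (.c 1))).ev w (Function.update ρ 10 v) m' = 2 ^ (v - 1) :=
          ev_rd' E' (by omega) (ev_sub er (ev_c (by omega)) (by omega)) (by omega)
            (hP (v - 1) (by omega)) (hpw _ (by omega))
        have h3 : 2 ^ v = 2 * 2 ^ (v - 1) := by
          rw [← pow_succ']; congr 1; omega
        have h4 := hpw v (by omega)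
        rw [ev_add (x := 0) (y := 2 * (1 * 2 ^ (v - 1))) e1 ?_ (by omega)]
        · omega
        · exact ev_mul (ev_c (by omega)) (ev_mul e2 e3 (by omega)) (by omega)
    · rw [cell_wr_ne E' (by omega) he (by omega) (by omega) (Or.inr hvq)]
      exact hP v (by omega)

/-! ### Decoding a subset -/

def eN1 : Ex := .sub (.sub (.r 0) (.c 1)) (.r 10)

def pBit1 : Sm := .seq
  (wr 3 eN1 (.sub (.c 1) (.lt (rd 2 (.c 0)) (rd 1 eN1))))
  (wr 2 (.c 0) (.sub (rd 2 (.c 0)) (.mul (rd 3 eN1) (rd 1 eN1))))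

def pBit : Sm := .seq (wr 2 (.c 0) (.r 8)) (.rep 0 10 pBit1)

theorem pBit_ev {w n k : ℕ} {ρ m : ℕ → ℕ} (E : Env w n k ρ) (h2 : 2 ^ n < 2 ^ w) {X : ℕ}
    (h8 : ρ 8 = X) (hX : X < 2 ^ n) (hpow : ∀ v ≤ n, cell n m 1 v = 2 ^ v) :
    Frame n [2, 3] m (pBit.ev w ρ m) ∧ ∀ v < n, cell n (pBit.ev w ρ m) 3 v = (X.testBit v).toNat := by
  have hn := E.nlt
  have h10 := E.one
  have hsq := le_sq n
  simp only [pBit, Sm.ev]
  set m1 := (wr 2 (.c 0) (.r 8)).ev w ρ m with hm1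
  have c0 : ∀ ρ m, (Ex.c 0).ev w ρ m = 0 := fun ρ m => ev_c (by omega)
  have hF1 : Frame n [2, 3] m m1 :=
    (Frame.refl _ _ _).wr E (by omega) (c0 _ _) (by omega) (by simp)
  have hr1 : cell n m1 2 0 = X := by
    rw [hm1, cell_wr_self E (by omega) (c0 _ _) (by omega)]
    exact ev_r h8 (by omega)
  have := rep_inv (w := w) (ρ := ρ) (m := m1) (x := 0) (v := 10) (b := pBit1)
    (fun q m' => Frame n [2, 3] m m' ∧ cell n m' 2 0 = X % 2 ^ (n - q) ∧
      ∀ v, n - q ≤ v → v < n → cell n m' 3 v = (X.testBit v).toNat)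
    ⟨hF1, by rw [hr1, Nat.sub_zero, Nat.mod_eq_of_lt hX], fun v h1 h2 => by omega⟩ ?_
  · rw [E.h0] at this
    exact ⟨this.1, fun v hv => this.2.2 v (by omega) hv⟩
  · rintro q hq m' ⟨hF, hr, hb⟩
    rw [E.h0] at hq
    have E' := E.upd (v := 10) (by omega) q
    set ρ' := Function.update ρ 10 q with hρ'
    have er : ∀ m, (Ex.r 10).ev w ρ' m = q := fun m => ev_r (by simp [hρ']) (by omega)
    obtain ⟨v, hv⟩ : ∃ v, v = n - 1 - q := ⟨_, rfl⟩
    have eN : ∀ m, eN1.ev w ρ' m = v := fun m => by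
      rw [hv]
      exact ev_sub (ev_sub (ev_r E'.h0 (by omega)) (ev_c (by omega)) (by omega)) (er m) (by omega)
    have hnq : n - q = v + 1 := by omega
    have hnq' : n - (q + 1) = v := by omega
    have hpv : 2 ^ v < 2 ^ w :=
      lt_of_le_of_lt (Nat.pow_le_pow_right (by omega) (by omega)) h2
    have hmod : X % 2 ^ (v + 1) = X % 2 ^ v + 2 ^ v * (X.testBit v).toNat := by
      rw [pow_succ, Nat.mod_mul, Nat.toNat_testBit]
    have hlt : X % 2 ^ v < 2 ^ v := Nat.mod_lt _ (by positivity)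
    have hXw : X % 2 ^ (v + 1) < 2 ^ w :=
      lt_of_le_of_lt (Nat.mod_le _ _) (by omega)
    rw [hnq] at hr
    -- first store
    simp only [pBit1, Sm.ev]
    set m2 := (wr 3 eN1 (.sub (.c 1) (.lt (rd 2 (.c 0)) (rd 1 eN1)))).ev w ρ' m' with hm2
    have hpow' : cell n m' 1 v = 2 ^ v := by
      rw [hF 1 v (by simp) (by omega), hpow v (by omega)]
    have hbit : (Ex.sub (.c 1) (.lt (rd 2 (.c 0)) (rd 1 eN1))).ev w ρ' m' =
        (X.testBit v).toNat := by
      have e1 : (rd 2 (.c 0)).ev w ρ' m' = X % 2 ^ (v + 1) :=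
        ev_rd' E' (by omega) (c0 _ _) (by omega) hr hXw
      have e2 : (rd 1 eN1).ev w ρ' m' = 2 ^ v :=
        ev_rd' E' (by omega) (eN m') (by omega) hpow' hpv
      have e3 := ev_lt (a := rd 2 (.c 0)) (b := rd 1 eN1) e1 e2
      rw [ev_sub (ev_c (by omega)) e3 (by split_ifs <;> omega)]
      rw [hmod]
      cases X.testBit v
      · simp [hlt]
      · simp
    have hF2 : Frame n [2, 3] m m2 := hF.wr E' (by omega) (eN m') (by omega) (by simp)
    have h3 : cell n m2 3 v = (X.testBit v).toNat := by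
      rw [hm2, cell_wr_self E' (by omega) (eN m') (by omega), hbit]
    have h3' : ∀ u < n, u ≠ v → cell n m2 3 u = cell n m' 3 u := fun u hu hne => by
      rw [hm2, cell_wr_ne E' (by omega) (eN m') (by omega) (by omega) (Or.inr hne)]
    have hr2 : cell n m2 2 0 = X % 2 ^ (v + 1) := by
      rw [hm2, cell_wr_ne E' (by omega) (eN m') (by omega) (by omega) (Or.inl (by omega)), hr]
    have hp2 : cell n m2 1 v = 2 ^ v := by
      rw [hF2 1 v (by simp) (by omega), hpow v (by omega)]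
    have hbl : (X.testBit v).toNat ≤ 1 := Bool.toNat_le _
    have hval : (Ex.sub (rd 2 (.c 0)) (.mul (rd 3 eN1) (rd 1 eN1))).ev w ρ' m2 = X % 2 ^ v := by
      have e1 : (rd 2 (.c 0)).ev w ρ' m2 = X % 2 ^ (v + 1) :=
        ev_rd' E' (by omega) (c0 _ _) (by omega) hr2 hXw
      have e2 : (rd 1 eN1).ev w ρ' m2 = 2 ^ v :=
        ev_rd' E' (by omega) (eN m2) (by omega) hp2 hpv
      have e3 : (rd 3 eN1).ev w ρ' m2 = (X.testBit v).toNat :=
        ev_rd' E' (by omega) (eN m2) (by omega) h3 (by omega)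
      have e4 : (X.testBit v).toNat * 2 ^ v < 2 ^ w := by
        calc _ ≤ 1 * 2 ^ v := Nat.mul_le_mul_right _ hbl
          _ < _ := by omega
      rw [ev_sub e1 (ev_mul e3 e2 e4) (by omega), hmod, mul_comm (2 ^ v)]
      omega
    refine ⟨hF2.wr E' (by omega) (c0 _ _) (by omega) (by simp), ?_, ?_⟩
    · rw [cell_wr_self E' (by omega) (c0 _ _) (by omega), hval, hnq']
    · intro u hu hun
      rw [cell_wr_ne E' (by omega) (c0 _ _) (by omega) (by omega) (Or.inl (by omega))]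
      by_cases huv : u = v
      · rw [huv, h3]
      · rw [h3' u hun huv]
        exact hb u (by omega) hun

/-- Number of zero bits among the first `j`. -/
def zc (X j : ℕ) : ℕ := ((range j).filter fun v => X.testBit v = false).card

def pPar1 : Sm := wr 4 (.c 0) (.add (.mul (rd 4 (.c 0)) (rd 3 (.r 10)))
  (.mul (.sub (.c 1) (rd 4 (.c 0))) (.sub (.c 1) (rd 3 (.r 10)))))

def pPar : Sm := .seq (wr 4 (.c 0) (.c 0)) (.rep 0 10 pPar1)

theorem pPar_ev {w n k : ℕ} {ρ m : ℕ → ℕ} (E : Env w n k ρ) {X : ℕ}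
    (hbit : ∀ v < n, cell n m 3 v = (X.testBit v).toNat) :
    Frame n [4] m (pPar.ev w ρ m) ∧ cell n (pPar.ev w ρ m) 4 0 = zc X n % 2 := by
  have hn := E.nlt
  have h10 := E.one
  have hsq := le_sq n
  simp only [pPar, Sm.ev]
  set m1 := (wr 4 (.c 0) (.c 0)).ev w ρ m with hm1
  have c0 : ∀ ρ m, (Ex.c 0).ev w ρ m = 0 := fun ρ m => ev_c (by omega)
  have hF1 : Frame n [4] m m1 :=
    (Frame.refl _ _ _).wr E (by omega) (c0 _ _) (by omega) (by simp)
  have hr1 : cell n m1 4 0 = 0 := by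
    rw [hm1, cell_wr_self E (by omega) (c0 _ _) (by omega), c0]
  have := rep_inv (w := w) (ρ := ρ) (m := m1) (x := 0) (v := 10) (b := pPar1)
    (fun q m' => Frame n [4] m m' ∧ cell n m' 4 0 = zc X q % 2)
    ⟨hF1, by rw [hr1]; simp [zc]⟩ ?_
  · rw [E.h0] at this
    exact this
  · rintro q hq m' ⟨hF, hr⟩
    rw [E.h0] at hq
    have E' := E.upd (v := 10) (by omega) q
    set ρ' := Function.update ρ 10 q with hρ'
    have er : ∀ m, (Ex.r 10).ev w ρ' m = q := fun m => ev_r (by simp [hρ']) (by omega)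
    refine ⟨hF.wr E' (by omega) (c0 _ _) (by omega) (by simp), ?_⟩
    simp only [pPar1]
    rw [cell_wr_self E' (by omega) (c0 _ _) (by omega)]
    have hmod : zc X q % 2 < 2 := Nat.mod_lt _ (by omega)
    have e4 : (rd 4 (.c 0)).ev w ρ' m' = zc X q % 2 :=
      ev_rd' E' (by omega) (c0 _ _) (by omega) hr (by omega)
    have hb : cell n m' 3 q = (X.testBit q).toNat := by
      rw [hF 3 q (by simp) (by omega), hbit q hq]
    have e3 : (rd 3 (.r 10)).ev w ρ' m' = (X.testBit q).toNat :=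
      ev_rd' E' (by omega) (er _) (by omega) hb (by have := Bool.toNat_le (X.testBit q); omega)
    have hz : zc X (q + 1) = zc X q + if X.testBit q = false then 1 else 0 := by
      unfold zc
      rw [range_add_one, filter_insert]
      split_ifs with h
      · rw [card_insert_of_notMem (by simp)]
      · simp
    have h1 : (zc X q % 2) * (X.testBit q).toNat ≤ 1 := by
      calc _ ≤ 1 * 1 := Nat.mul_le_mul (by omega) (Bool.toNat_le _)
        _ = 1 := rfl
    have h2 : (1 - zc X q % 2) * (1 - (X.testBit q).toNat) ≤ 1 := by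
      calc _ ≤ 1 * 1 := Nat.mul_le_mul (by omega) (by omega)
        _ = 1 := rfl
    rw [ev_add (ev_mul e4 e3 (by omega)) (ev_mul (ev_sub (ev_c (by omega)) e4 (by omega))
      (ev_sub (ev_c (by omega)) e3 (by omega)) (by omega)) (by omega), hz]
    cases X.testBit q
    · simp; omega
    · simp

/-! ### The table of forests -/

def pAcc0 : Sm := .rep 2 10 (wr 6 (.r 10) (.lt (.r 10) (.c 1)))

theorem pAcc0_ev {w n k : ℕ} {ρ m : ℕ → ℕ} (E : Env w n k ρ) :
    Frame n [6] m (pAcc0.ev w ρ m) ∧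
      ∀ t ≤ n, cell n (pAcc0.ev w ρ m) 6 t = if t = 0 then 1 else 0 := by
  have hn := E.nlt
  have h10 := E.one
  have hsq := le_sq n
  have := rep_inv (w := w) (ρ := ρ) (m := m) (x := 2) (v := 10) (b := wr 6 (.r 10) (.lt (.r 10) (.c 1)))
    (fun q m' => Frame n [6] m m' ∧ ∀ t < q, cell n m' 6 t = if t = 0 then 1 else 0)
    ⟨Frame.refl _ _ _, by simp⟩ ?_
  · rw [E.h2] at this
    exact ⟨this.1, fun t ht => this.2 t (by omega)⟩
  · rintro q hq m' ⟨hF, hP⟩
    rw [E.h2] at hq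
    have E' := E.upd (v := 10) (by omega) q
    set ρ' := Function.update ρ 10 q with hρ'
    have er : ∀ m, (Ex.r 10).ev w ρ' m = q := fun m => ev_r (by simp [hρ']) (by omega)
    refine ⟨hF.wr E' (by omega) (er _) (by omega) (by simp), fun t ht => ?_⟩
    by_cases htq : t = q
    · subst htq
      rw [cell_wr_self E' (by omega) (er _) (by omega), ev_lt (er _) (ev_c (by omega))]
      simp
    · rw [cell_wr_ne E' (by omega) (er _) (by omega) (by omega) (Or.inr htq)]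
      exact hP t (by omega)

end Pool.Agent.H641R2.DCS
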