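import Pool.Agent.H641R2.DCS.Sem

/-!
The dynamic programme for one vertex subset.
-/

namespace Pool.Agent.H641R2.DCS

open Pool.Agent.H588R2 Finset

def eLab (x : ℕ) : Ex := rd 0 (.add (.mul (.r 0) (.r 0)) (.r x))
def eAdj (x y : ℕ) : Ex := rd 0 (.add (.mul (.r x) (.r 0)) (.r y))
def eAllow : Ex := .add (.lt (eLab 11) (.c 1))
  (.mul (.lt (.r 9) (eLab 11)) (.lt (eLab 11) (.add (.r 9) (.c 2))))

/-- Input blocks in memory. -/
structure Inp (n : ℕ) (A : ℕ → ℕ → Bool) (lab : ℕ → ℕ) (m : ℕ → ℕ) : Prop where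
  adj : ∀ v < n, ∀ u < n, cell n m 0 (v * n + u) = if A v u then 1 else 0
  lab : ∀ v < n, cell n m 0 (n * n + v) = lab v

theorem Inp.frame {n : ℕ} {A : ℕ → ℕ → Bool} {lab : ℕ → ℕ} {m m' : ℕ → ℕ} {S : List ℕ}
    (h : Inp n A lab m) (hF : Frame n S m m') (hS : 0 ∉ S) : Inp n A lab m' := by
  constructor
  · intro v hv u hu
    rw [hF 0 _ hS (by nlinarith), h.adj v hv u hu]
  · intro v hv
    rw [hF 0 _ hS (by nlinarith), h.lab v hv]

section

variable {w n k : ℕ} {ρ m : ℕ → ℕ} {A : ℕ → ℕ → Bool} {lab : ℕ → ℕ}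

theorem eLab_ev (E : Env w n k ρ) (hI : Inp n A lab m) (hl : ∀ v < n, lab v ≤ n) {x v : ℕ}
    (hx : ρ x = v) (hv : v < n) : (eLab x).ev w ρ m = lab v := by
  have hn := E.nlt
  have hw := E.hw
  have h1 : n * n + v < (n + 1) ^ 2 := by nlinarith
  refine ev_rd' E (by omega) (ev_add (ev_mul (ev_r E.h0 (by omega)) (ev_r E.h0 (by omega))
    (by omega)) (ev_r hx (by omega)) (by omega)) h1 (hI.lab v hv) ?_
  have := hl v hv
  omega

theorem eAdj_ev (E : Env w n k ρ) (hI : Inp n A lab m) {x y v u : ℕ}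
    (hx : ρ x = v) (hv : v < n) (hy : ρ y = u) (hu : u < n) :
    (eAdj x y).ev w ρ m = if A v u then 1 else 0 := by
  have hn := E.nlt
  have hw := E.hw
  have h10 := E.one
  have h1 : v * n + u < (n + 1) ^ 2 := by nlinarith
  refine ev_rd' E (by omega) (ev_add (ev_mul (ev_r hx (by omega)) (ev_r E.h0 (by omega))
    (by omega)) (ev_r hy (by omega)) (by omega)) h1 (hI.adj v hv u hu) ?_
  split_ifs <;> omega

theorem eAllow_ev (E : Env w n k ρ) (hI : Inp n A lab m) (hl : ∀ v < n, lab v ≤ n) {i v : ℕ}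
    (h9 : ρ 9 = i) (hi : i < n) (h11 : ρ 11 = v) (hv : v < n) :
    eAllow.ev w ρ m = if lab v = 0 ∨ lab v = i + 1 then 1 else 0 := by
  have hn := E.nlt
  have h10 := E.one
  have hw := E.hw
  have hsq := le_sq n
  have e1 := eLab_ev E hI hl h11 hv
  have e9 : (Ex.r 9).ev w ρ m = i := ev_r h9 (by omega)
  have a1 := ev_lt (b := .c 1) e1 (ev_c (w := w) (ρ := ρ) (m := m) (c := 1) (by omega))
  have a2 := ev_lt e9 e1
  have a3 := ev_lt e1 (ev_add e9 (ev_c (c := 2) (by omega)) (by omega))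
  have := hl v hv
  unfold eAllow
  rw [ev_add a1 (ev_mul a2 a3 (by split_ifs <;> omega)) (by split_ifs <;> omega)]
  by_cases h0 : lab v = 0
  · simp [h0]
  · by_cases h2 : lab v = i + 1
    · simp [h2]
    · rw [if_neg (by omega), if_neg (by omega : ¬ (lab v = 0 ∨ lab v = i + 1))]
      by_cases h3 : i < lab v
      · rw [if_neg (by omega : ¬ lab v < i + 2)]; simp
      · rw [if_neg h3]; simp

/-! ### Trees -/

def eB : Ex := .add (.mul (.lt (.r 10) (.c 1)) (.mul (rd 3 (.r 11)) eAllow))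
  (.sum 0 12 (.mul (eAdj 11 12) (.sum 0 13 (.mul (.lt (.r 13) (.r 10))
    (.mul (rd 5 (ix (.r 13) (.r 12)))
      (rd 5 (ix (.sub (.sub (.r 10) (.c 1)) (.r 13)) (.r 11))))))))

def pB : Sm := .rep 0 10 (.rep 0 11 (wr 5 (ix (.r 10) (.r 11)) eB))

theorem bT_formula {R : Type*} [CommSemiring R] (n : ℕ) (A : ℕ → ℕ → Bool) (lab : ℕ → ℕ)
    (y : ℕ → R) (i s v : ℕ) (hs : s < n) :
    bT n A lab y i s v = (if s < 1 then 1 else 0) * (y v * if lab v = 0 ∨ lab v = i + 1 then 1 else 0)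
      + ∑ u ∈ range n, (if A v u then 1 else 0) * ∑ j ∈ range n, (if j < s then 1 else 0) *
        (bT n A lab y i j u * bT n A lab y i (s - 1 - j) v) := by
  cases s with
  | zero => simp [bT]
  | succ s =>
    simp only [bT]
    rw [if_neg (by omega), zero_mul, zero_add]
    refine sum_congr rfl fun u _ => ?_
    have : ∑ j ∈ range n, (if j < s + 1 then 1 else 0) *
        (bT n A lab y i j u * bT n A lab y i (s + 1 - 1 - j) v) =
        ∑ j : Fin (s + 1), bT n A lab y i j u * bT n A lab y i (s - j) v := by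
      rw [← Finset.sum_range (fun j => bT n A lab y i j u * bT n A lab y i (s - j) v)]
      symm
      rw [← sum_subset (range_subset_range.2 (by omega : s + 1 ≤ n))]
      · refine sum_congr rfl fun j hj => ?_
        rw [mem_range] at hj
        rw [if_pos hj, one_mul, Nat.add_sub_cancel]
      · intro j _ hj
        rw [mem_range] at hj
        rw [if_neg hj, zero_mul]
    rw [this]
    split_ifs <;> simp

theorem eB_cast (E : Env w n k ρ) (hI : Inp n A lab m) (hl : ∀ v < n, lab v ≤ n) {i s v X : ℕ}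
    (h9 : ρ 9 = i) (hi : i < n) (h10 : ρ 10 = s) (hs : s < n) (h11 : ρ 11 = v) (hv : v < n)
    (hbit : ∀ v < n, cell n m 3 v = (X.testBit v).toNat)
    (hB : ∀ j < s, ∀ u < n, ((cell n m 5 (j * (n + 1) + u) : ℕ) : ZMod (2 ^ w)) =
      bT n A lab (fun v => ((X.testBit v).toNat : ZMod (2 ^ w))) i j u) :
    ((eB.ev w ρ m : ℕ) : ZMod (2 ^ w)) =
      bT n A lab (fun v => ((X.testBit v).toNat : ZMod (2 ^ w))) i s v := by
  have hn := E.nlt
  have hone := E.one
  have hw := E.hw
  have hsq := le_sq n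
  rw [bT_formula n A lab _ i s v hs]
  unfold eB
  rw [cast_add, cast_mul, cast_mul]
  congr 1
  · congr 1
    · rw [ev_lt (ev_r h10 (by omega)) (ev_c (by omega))]
      split_ifs <;> simp
    · congr 1
      · rw [cast_rd E (by omega) (ev_r h11 (by omega)) (by omega), hbit v hv]
      · rw [eAllow_ev E hI hl h9 hi h11 hv]
        split_ifs <;> simp
  · rw [cast_sum, E.h0]
    refine sum_congr rfl fun u hu => ?_
    rw [mem_range] at hu
    have E1 := E.upd (v := 12) (by omega) u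
    set ρ1 := Function.update ρ 12 u with hρ1
    rw [cast_mul]
    congr 1
    · rw [eAdj_ev E1 hI (x := 11) (y := 12) (v := v) (u := u) (by simp [hρ1, h11]) hv
        (by simp [hρ1]) hu]
      split_ifs <;> simp
    · rw [cast_sum, E1.h0]
      refine sum_congr rfl fun j hj => ?_
      rw [mem_range] at hj
      have E2 := E1.upd (v := 13) (by omega) j
      set ρ2 := Function.update ρ1 13 j with hρ2
      have e13 : (Ex.r 13).ev w ρ2 m = j := ev_r (by simp [hρ2]) (by omega)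
      have e12 : (Ex.r 12).ev w ρ2 m = u := ev_r (by simp [hρ2, hρ1]) (by omega)
      have e11 : (Ex.r 11).ev w ρ2 m = v := ev_r (by simp [hρ2, hρ1, h11]) (by omega)
      have e10 : (Ex.r 10).ev w ρ2 m = s := ev_r (by simp [hρ2, hρ1, h10]) (by omega)
      rw [cast_mul, cast_mul, ev_lt e13 e10]
      by_cases hjs : j < s
      · rw [if_pos hjs, if_pos hjs]
        congr 1
        · simp
        · congr 1
          · rw [cast_rd E2 (by omega) (ev_ix E2 e13 e12 (by omega) (by omega))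
              (ix_lt (by omega) (by omega)), hB j hjs u hu]
          · rw [cast_rd E2 (by omega) (ev_ix E2 (ev_sub (ev_sub e10 (ev_c (by omega)) (by omega))
              e13 (by omega)) e11 (by omega) (by omega))
              (ix_lt (by omega) (by omega)), hB (s - 1 - j) (by omega) v hv]
      · rw [if_neg hjs, if_neg hjs]
        simp

theorem pB_ev (E : Env w n k ρ) (hI : Inp n A lab m) (hl : ∀ v < n, lab v ≤ n) {i X : ℕ}
    (h9 : ρ 9 = i) (hi : i < n)
    (hbit : ∀ v < n, cell n m 3 v = (X.testBit v).toNat) :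
    Frame n [5] m (pB.ev w ρ m) ∧ ∀ s < n, ∀ v < n,
      ((cell n (pB.ev w ρ m) 5 (s * (n + 1) + v) : ℕ) : ZMod (2 ^ w)) =
      bT n A lab (fun v => ((X.testBit v).toNat : ZMod (2 ^ w))) i s v := by
  have hn := E.nlt
  have hsq := le_sq n
  have := rep_inv (w := w) (ρ := ρ) (m := m) (x := 0) (v := 10)
    (b := .rep 0 11 (wr 5 (ix (.r 10) (.r 11)) eB))
    (fun q m' => Frame n [5] m m' ∧ ∀ s < q, ∀ v < n,
      ((cell n m' 5 (s * (n + 1) + v) : ℕ) : ZMod (2 ^ w)) =
      bT n A lab (fun v => ((X.testBit v).toNat : ZMod (2 ^ w))) i s v)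
    ⟨Frame.refl _ _ _, by simp⟩ ?_
  · rw [E.h0] at this
    exact this
  · rintro s hs m1 ⟨hF1, hB1⟩
    rw [E.h0] at hs
    have E1 := E.upd (v := 10) (by omega) s
    set ρ1 := Function.update ρ 10 s with hρ1
    have := rep_inv (w := w) (ρ := ρ1) (m := m1) (x := 0) (v := 11)
      (b := wr 5 (ix (.r 10) (.r 11)) eB)
      (fun q m' => Frame n [5] m m' ∧ (∀ s' < s, ∀ v < n,
        ((cell n m' 5 (s' * (n + 1) + v) : ℕ) : ZMod (2 ^ w)) =
        bT n A lab (fun v => ((X.testBit v).toNat : ZMod (2 ^ w))) i s' v) ∧ ∀ v < q,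
        ((cell n m' 5 (s * (n + 1) + v) : ℕ) : ZMod (2 ^ w)) =
        bT n A lab (fun v => ((X.testBit v).toNat : ZMod (2 ^ w))) i s v)
      ⟨hF1, hB1, by simp⟩ ?_
    · rw [E1.h0] at this
      refine ⟨this.1, fun s' hs' v hv => ?_⟩
      by_cases h : s' = s
      · subst h; exact this.2.2 v hv
      · exact this.2.1 s' (by omega) v hv
    · rintro v hv m2 ⟨hF2, hB2, hC2⟩
      rw [E1.h0] at hv
      have E2 := E1.upd (v := 11) (by omega) v
      set ρ2 := Function.update ρ1 11 v with hρ2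
      have e10 : (Ex.r 10).ev w ρ2 m2 = s := ev_r (by simp [hρ2, hρ1]) (by omega)
      have e11 : (Ex.r 11).ev w ρ2 m2 = v := ev_r (by simp [hρ2]) (by omega)
      have eix := ev_ix E2 e10 e11 (by omega) (by omega)
      have hlt := ix_lt (n := n) (x := s) (y := v) (by omega) (by omega)
      refine ⟨hF2.wr E2 (by omega) eix hlt (by simp), ?_, ?_⟩
      · intro s' hs' u hu
        rw [cell_wr_ne E2 (by omega) eix hlt (ix_lt (by omega) (by omega))
          (Or.inr (fun e => by have := (ix_inj (by omega) (by omega) e).1; omega))]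
        exact hB2 s' hs' u hu
      · intro u hu
        by_cases huv : u = v
        · subst huv
          rw [cell_wr_self E2 (by omega) eix hlt]
          refine eB_cast E2 (hI.frame hF2 (by simp)) hl (by simp [hρ2, hρ1, h9]) hi
            (by simp [hρ2, hρ1]) hs (by simp [hρ2]) hv ?_ hB2
          intro v' hv'
          rw [hF2 3 v' (by simp) (by omega), hbit v' hv']
        · rw [cell_wr_ne E2 (by omega) eix hlt (ix_lt (by omega) (by omega))
            (Or.inr (fun e => huv (ix_inj (by omega) (by omega) e).2))]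
          exact hC2 u (by omega)

/-! ### Forests -/

def eAcc : Ex := .sum 0 11 (.sum 0 12 (.mul (.lt (.r 11) (.r 10))
  (.mul (rd 5 (ix (.r 11) (.r 12))) (rd 6 (ix (.r 9) (.sub (.sub (.r 10) (.c 1)) (.r 11)))))))

def pAcc : Sm := .rep 2 10 (wr 6 (ix (.add (.r 9) (.c 1)) (.r 10)) eAcc)

theorem aT_formula {R : Type*} [CommSemiring R] (n : ℕ) (A : ℕ → ℕ → Bool) (lab : ℕ → ℕ)
    (y : ℕ → R) (i t : ℕ) :
    aT n A lab y (i + 1) t = ∑ s ∈ range n, ∑ v ∈ range n, (if s < t then 1 else 0) *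
      (bT n A lab y i s v * aT n A lab y i (t - 1 - s)) := by
  simp only [aT]
  refine sum_congr rfl fun s _ => sum_congr rfl fun v _ => ?_
  split_ifs <;> simp

theorem pAcc_ev (E : Env w n k ρ) {i X : ℕ} (h9 : ρ 9 = i) (hi : i < n)
    (hB : ∀ s < n, ∀ v < n, ((cell n m 5 (s * (n + 1) + v) : ℕ) : ZMod (2 ^ w)) =
      bT n A lab (fun v => ((X.testBit v).toNat : ZMod (2 ^ w))) i s v)
    (hA : ∀ t ≤ n, ((cell n m 6 (i * (n + 1) + t) : ℕ) : ZMod (2 ^ w)) =
      aT n A lab (fun v => ((X.testBit v).toNat : ZMod (2 ^ w))) i t) :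
    Frame n [6] m (pAcc.ev w ρ m) ∧ ∀ t ≤ n,
      ((cell n (pAcc.ev w ρ m) 6 ((i + 1) * (n + 1) + t) : ℕ) : ZMod (2 ^ w)) =
      aT n A lab (fun v => ((X.testBit v).toNat : ZMod (2 ^ w))) (i + 1) t := by
  have hn := E.nlt
  have hone := E.one
  have hsq := le_sq n
  have := rep_inv (w := w) (ρ := ρ) (m := m) (x := 2) (v := 10)
    (b := wr 6 (ix (.add (.r 9) (.c 1)) (.r 10)) eAcc)
    (fun q m' => Frame n [6] m m' ∧ (∀ t ≤ n, ((cell n m' 6 (i * (n + 1) + t) : ℕ) : ZMod (2 ^ w)) =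
      aT n A lab (fun v => ((X.testBit v).toNat : ZMod (2 ^ w))) i t) ∧ ∀ t < q,
      ((cell n m' 6 ((i + 1) * (n + 1) + t) : ℕ) : ZMod (2 ^ w)) =
      aT n A lab (fun v => ((X.testBit v).toNat : ZMod (2 ^ w))) (i + 1) t)
    ⟨Frame.refl _ _ _, hA, by simp⟩ ?_
  · rw [E.h2] at this
    exact ⟨this.1, fun t ht => this.2.2 t (by omega)⟩
  · rintro q hq m1 ⟨hF1, hA1, hC1⟩
    rw [E.h2] at hq
    have E1 := E.upd (v := 10) (by omega) q
    set ρ1 := Function.update ρ 10 q with hρ1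
    have e9 : (Ex.r 9).ev w ρ1 m1 = i := ev_r (by simp [hρ1, h9]) (by omega)
    have e10 : (Ex.r 10).ev w ρ1 m1 = q := ev_r (by simp [hρ1]) (by omega)
    have eix := ev_ix E1 (ev_add e9 (ev_c (c := 1) (by omega)) (by omega)) e10 (by omega) (by omega)
    have hlt := ix_lt (n := n) (x := i + 1) (y := q) (by omega) (by omega)
    refine ⟨hF1.wr E1 (by omega) eix hlt (by simp), ?_, ?_⟩
    · intro t ht
      rw [cell_wr_ne E1 (by omega) eix hlt (ix_lt (by omega) (by omega))
        (Or.inr (fun e => by have := (ix_inj (by omega) (by omega) e).1; omega))]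
      exact hA1 t ht
    · intro t ht
      by_cases htq : t = q
      · subst htq
        rw [cell_wr_self E1 (by omega) eix hlt, aT_formula]
        unfold eAcc
        rw [cast_sum, E1.h0]
        refine sum_congr rfl fun s hs => ?_
        rw [mem_range] at hs
        have E2 := E1.upd (v := 11) (by omega) s
        rw [cast_sum, E2.h0]
        refine sum_congr rfl fun v hv => ?_
        rw [mem_range] at hv
        have E3 := E2.upd (v := 12) (by omega) v
        set ρ3 := Function.update (Function.update ρ1 11 s) 12 v with hρ3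
        have e12 : (Ex.r 12).ev w ρ3 m1 = v := ev_r (by simp [hρ3]) (by omega)
        have e11 : (Ex.r 11).ev w ρ3 m1 = s := ev_r (by simp [hρ3]) (by omega)
        have e10 : (Ex.r 10).ev w ρ3 m1 = t := ev_r (by simp [hρ3, hρ1]) (by omega)
        have e9 : (Ex.r 9).ev w ρ3 m1 = i := ev_r (by simp [hρ3, hρ1, h9]) (by omega)
        rw [cast_mul, cast_mul, ev_lt e11 e10]
        by_cases hst : s < t
        · rw [if_pos hst, if_pos hst]
          congr 1
          · simp
          · congr 1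
            · rw [cast_rd E3 (by omega) (ev_ix E3 e11 e12 (by omega) (by omega))
                (ix_lt (by omega) (by omega)), hF1 5 _ (by simp) (ix_lt (by omega) (by omega)),
                hB s hs v hv]
            · rw [cast_rd E3 (by omega) (ev_ix E3 e9 (ev_sub (ev_sub e10 (ev_c (by omega))
                (by omega)) e11 (by omega)) (by omega) (by omega))
                (ix_lt (by omega) (by omega)), hA1 _ (by omega)]
        · rw [if_neg hst, if_neg hst]
          simp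
      · rw [cell_wr_ne E1 (by omega) eix hlt (ix_lt (by omega) (by omega))
          (Or.inr (fun e => htq (ix_inj (by omega) (by omega) e).2))]
        exact hC1 t (by omega)

def pCl : Sm := .seq pAcc0 (.rep 1 9 (.seq pB pAcc))

theorem pCl_ev (E : Env w n k ρ) (hI : Inp n A lab m) (hl : ∀ v < n, lab v ≤ n) {X : ℕ}
    (hbit : ∀ v < n, cell n m 3 v = (X.testBit v).toNat) :
    Frame n [5, 6] m (pCl.ev w ρ m) ∧ ∀ t ≤ n,
      ((cell n (pCl.ev w ρ m) 6 (k * (n + 1) + t) : ℕ) : ZMod (2 ^ w)) =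
      aT n A lab (fun v => ((X.testBit v).toNat : ZMod (2 ^ w))) k t := by
  have hk := E.hk
  have hsq := le_sq n
  obtain ⟨hF0, hP0⟩ := pAcc0_ev (m := m) E
  simp only [pCl, Sm.ev]
  set m0 := pAcc0.ev w ρ m with hm0
  have := rep_inv (w := w) (ρ := ρ) (m := m0) (x := 1) (v := 9) (b := .seq pB pAcc)
    (fun q m' => Frame n [5, 6] m m' ∧ ∀ t ≤ n,
      ((cell n m' 6 (q * (n + 1) + t) : ℕ) : ZMod (2 ^ w)) =
      aT n A lab (fun v => ((X.testBit v).toNat : ZMod (2 ^ w))) q t)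
    ⟨hF0.mono (by simp), fun t ht => by
      rw [zero_mul, zero_add, hP0 t ht]; simp only [aT]; split_ifs <;> simp⟩ ?_
  · rw [E.h1] at this
    exact this
  · rintro i hi m1 ⟨hF1, hA1⟩
    rw [E.h1] at hi
    have E1 := E.upd (v := 9) (by omega) i
    simp only [Sm.ev]
    have h9 : Function.update ρ 9 i 9 = i := by simp
    obtain ⟨hF2, hB2⟩ := pB_ev (X := X) E1 (hI.frame hF1 (by simp)) hl h9 (by omega)
      (fun v hv => by rw [hF1 3 v (by simp) (by omega), hbit v hv])
    obtain ⟨hF3, hA3⟩ := pAcc_ev (X := X) (A := A) (lab := lab) E1 h9 (by omega) hB2 (fun t ht => by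
      rw [hF2 6 _ (by simp) (ix_lt (by omega) (by omega)), hA1 t ht])
    exact ⟨(hF1.trans (hF2.mono (by simp))).trans (hF3.mono (by simp)), hA3⟩

/-! ### Solutions -/

def eFree : Ex := .sum 0 11 (.mul (.lt (eLab 11) (.c 1)) (rd 3 (.r 11)))

def pH : Sm := .rep 2 10 (wr 7 (.r 10) (.add (.mul (.mul (.lt (.c 0) (.r 10))
  (rd 7 (.sub (.r 10) (.c 1)))) eFree) (rd 6 (ix (.r 1) (.r 10)))))

theorem hT_formula {R : Type*} [CommSemiring R] (n : ℕ) (A : ℕ → ℕ → Bool) (lab : ℕ → ℕ)
    (y : ℕ → R) (k t : ℕ) :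
    hT n A lab y k t = (if 0 < t then 1 else 0) * hT n A lab y k (t - 1) *
      (∑ v ∈ range n, (if lab v < 1 then 1 else 0) * y v) + aT n A lab y k t := by
  cases t with
  | zero => simp [hT]
  | succ t =>
    simp only [hT]
    rw [if_pos (by omega), one_mul, Nat.add_sub_cancel]
    congr 2
    refine sum_congr rfl fun v _ => ?_
    by_cases h : lab v = 0 <;> simp [h]

theorem pH_ev (E : Env w n k ρ) (hI : Inp n A lab m) (hl : ∀ v < n, lab v ≤ n) {X : ℕ}
    (hbit : ∀ v < n, cell n m 3 v = (X.testBit v).toNat)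
    (hA : ∀ t ≤ n, ((cell n m 6 (k * (n + 1) + t) : ℕ) : ZMod (2 ^ w)) =
      aT n A lab (fun v => ((X.testBit v).toNat : ZMod (2 ^ w))) k t) :
    Frame n [7] m (pH.ev w ρ m) ∧ ∀ t ≤ n,
      ((cell n (pH.ev w ρ m) 7 t : ℕ) : ZMod (2 ^ w)) =
      hT n A lab (fun v => ((X.testBit v).toNat : ZMod (2 ^ w))) k t := by
  have hn := E.nlt
  have hone := E.one
  have hsq := le_sq n
  have hk := E.hk
  have := rep_inv (w := w) (ρ := ρ) (m := m) (x := 2) (v := 10)
    (b := wr 7 (.r 10) (.add (.mul (.mul (.lt (.c 0) (.r 10))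
      (rd 7 (.sub (.r 10) (.c 1)))) eFree) (rd 6 (ix (.r 1) (.r 10)))))
    (fun q m' => Frame n [7] m m' ∧ ∀ t < q,
      ((cell n m' 7 t : ℕ) : ZMod (2 ^ w)) =
      hT n A lab (fun v => ((X.testBit v).toNat : ZMod (2 ^ w))) k t)
    ⟨Frame.refl _ _ _, by simp⟩ ?_
  · rw [E.h2] at this
    exact ⟨this.1, fun t ht => this.2 t (by omega)⟩
  · rintro q hq m1 ⟨hF1, hP1⟩
    rw [E.h2] at hq
    have E1 := E.upd (v := 10) (by omega) q
    set ρ1 := Function.update ρ 10 q with hρ1
    have e10 : (Ex.r 10).ev w ρ1 m1 = q := ev_r (by simp [hρ1]) (by omega)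
    refine ⟨hF1.wr E1 (by omega) e10 (by omega) (by simp), ?_⟩
    intro t ht
    by_cases htq : t = q
    · subst htq
      rw [cell_wr_self E1 (by omega) e10 (by omega), hT_formula, cast_add, cast_mul, cast_mul]
      congr 1
      · congr 1
        · rw [ev_lt (ev_c (by omega)) e10]
          by_cases h0 : 0 < t
          · rw [if_pos h0, if_pos h0]
            congr 1
            · simp
            · rw [cast_rd E1 (by omega) (ev_sub e10 (ev_c (by omega)) (by omega)) (by omega),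
                hP1 _ (by omega)]
          · rw [if_neg h0, if_neg h0]; simp
        · unfold eFree
          rw [cast_sum, E1.h0]
          refine sum_congr rfl fun v hv => ?_
          rw [mem_range] at hv
          have E2 := E1.upd (v := 11) (by omega) v
          rw [cast_mul, ev_lt (eLab_ev E2 (hI.frame hF1 (by simp)) hl (by simp) hv)
            (ev_c (by omega)), cast_rd E2 (by omega) (ev_r (y := v) (by simp) (by omega)) (by omega),
            hF1 3 v (by simp) (by omega), hbit v hv]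
          split_ifs <;> simp
      · rw [cast_rd E1 (by omega) (ev_ix E1 (ev_r E1.h1 (by omega)) e10 (by omega) (by omega))
          (ix_lt (by omega) (by omega)), hF1 6 _ (by simp) (ix_lt (by omega) (by omega)),
          hA _ (by omega)]
    · rw [cell_wr_ne E1 (by omega) e10 (by omega) (by omega) (Or.inr htq)]
      exact hP1 t (by omega)

def pAdd : Sm := .seq
  (wr 8 (.c 0) (.add (rd 8 (.c 0)) (.mul (.sub (.c 1) (rd 4 (.c 0))) (rd 7 (.r 0)))))
  (wr 9 (.c 0) (.add (rd 9 (.c 0)) (.mul (rd 4 (.c 0)) (rd 7 (.r 0)))))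

def pBody : Sm := .seq pBit (.seq pPar (.seq pCl (.seq pH pAdd)))

/-- Memory between two iterations of the main loop. -/
structure Good (n : ℕ) (A : ℕ → ℕ → Bool) (lab : ℕ → ℕ) (m : ℕ → ℕ) : Prop where
  inp : Inp n A lab m
  pow : ∀ v ≤ n, cell n m 1 v = 2 ^ v

theorem pBody_ev (E : Env w n k ρ) (h2 : 2 ^ n < 2 ^ w) (hG : Good n A lab m)
    (hl : ∀ v < n, lab v ≤ n) {X : ℕ} (h8 : ρ 8 = X) (hX : X < 2 ^ n) :
    Good n A lab (pBody.ev w ρ m) ∧
    ((cell n (pBody.ev w ρ m) 8 0 : ℕ) : ZMod (2 ^ w)) = (cell n m 8 0 : ℕ) +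
      (if zc X n % 2 = 0 then
        hT n A lab (fun v => ((X.testBit v).toNat : ZMod (2 ^ w))) k n else 0) ∧
    ((cell n (pBody.ev w ρ m) 9 0 : ℕ) : ZMod (2 ^ w)) = (cell n m 9 0 : ℕ) +
      (if zc X n % 2 = 0 then 0 else
        hT n A lab (fun v => ((X.testBit v).toNat : ZMod (2 ^ w))) k n) := by
  have hn := E.nlt
  have hone := E.one
  have hsq := le_sq n
  have hk := E.hk
  simp only [pBody, Sm.ev]
  obtain ⟨F1, B1⟩ := pBit_ev E h2 h8 hX hG.pow
  set m1 := pBit.ev w ρ m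
  obtain ⟨F2, P2⟩ := pPar_ev E B1
  set m2 := pPar.ev w ρ m1
  have G2 : Frame n [2, 3, 4] m m2 := (F1.mono (by simp)).trans (F2.mono (by simp))
  have B2 : ∀ v < n, cell n m2 3 v = (X.testBit v).toNat := fun v hv => by
    rw [F2 3 v (by simp) (by omega), B1 v hv]
  obtain ⟨F3, A3⟩ := pCl_ev E (hG.inp.frame G2 (by simp)) hl B2
  set m3 := pCl.ev w ρ m2
  have G3 : Frame n [2, 3, 4, 5, 6] m m3 := (G2.mono (by simp)).trans (F3.mono (by simp))
  have B3 : ∀ v < n, cell n m3 3 v = (X.testBit v).toNat := fun v hv => by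
    rw [F3 3 v (by simp) (by omega), B2 v hv]
  obtain ⟨F4, H4⟩ := pH_ev E (hG.inp.frame G3 (by simp)) hl B3 A3
  set m4 := pH.ev w ρ m3
  have G4 : Frame n [2, 3, 4, 5, 6, 7] m m4 := (G3.mono (by simp)).trans (F4.mono (by simp))
  have P4 : cell n m4 4 0 = zc X n % 2 := by
    rw [F4 4 0 (by simp) (by omega), F3 4 0 (by simp) (by omega), P2]
  have hmod : zc X n % 2 < 2 := Nat.mod_lt _ (by omega)
  have c0 : ∀ m, (Ex.c 0).ev w ρ m = 0 := fun m => ev_c (by omega)
  have e0 : ∀ m, (Ex.r 0).ev w ρ m = n := fun m => ev_r E.h0 (by omega)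
  simp only [pAdd, Sm.ev]
  set m5 := (wr 8 (.c 0) (.add (rd 8 (.c 0)) (.mul (.sub (.c 1) (rd 4 (.c 0)))
    (rd 7 (.r 0))))).ev w ρ m4 with hm5
  have F5 : Frame n [8] m4 m5 :=
    (Frame.refl _ _ _).wr E (by omega) (c0 m4) (by omega) (by simp)
  have C5 : ((cell n m5 8 0 : ℕ) : ZMod (2 ^ w)) = (cell n m 8 0 : ℕ) +
      (if zc X n % 2 = 0 then
        hT n A lab (fun v => ((X.testBit v).toNat : ZMod (2 ^ w))) k n else 0) := by
    rw [hm5, cell_wr_self E (by omega) (c0 m4) (by omega), cast_add, cast_mul,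
      cast_rd E (by omega) (c0 m4) (by omega), cast_rd E (by omega) (e0 m4) (by omega),
      H4 n le_rfl, G4 8 0 (by simp) (by omega)]
    congr 1
    have e4 : (rd 4 (.c 0)).ev w ρ m4 = zc X n % 2 :=
      ev_rd' E (by omega) (c0 m4) (by omega) P4 (by omega)
    rw [ev_sub (ev_c (by omega)) e4 (by omega)]
    split_ifs with h
    · rw [h]; simp
    · have : zc X n % 2 = 1 := by omega
      rw [this]; simp
  have P5 : cell n m5 4 0 = zc X n % 2 := by rw [F5 4 0 (by simp) (by omega), P4]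
  set m6 := (wr 9 (.c 0) (.add (rd 9 (.c 0)) (.mul (rd 4 (.c 0)) (rd 7 (.r 0))))).ev w ρ m5
    with hm6
  have F6 : Frame n [9] m5 m6 :=
    (Frame.refl _ _ _).wr E (by omega) (c0 m5) (by omega) (by simp)
  have G6 : Frame n [2, 3, 4, 5, 6, 7, 8, 9] m m6 :=
    ((G4.mono (by simp)).trans (F5.mono (by simp))).trans (F6.mono (by simp))
  refine ⟨⟨hG.inp.frame G6 (by simp), fun v hv => ?_⟩, ?_, ?_⟩
  · rw [G6 1 v (by simp) (by omega), hG.pow v hv]
  · rw [F6 8 0 (by simp) (by omega), C5]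
  · rw [hm6, cell_wr_self E (by omega) (c0 m5) (by omega), cast_add, cast_mul,
      cast_rd E (by omega) (c0 m5) (by omega), cast_rd E (by omega) (e0 m5) (by omega),
      F5 7 n (by simp) (by omega), H4 n le_rfl, F5 9 0 (by simp) (by omega),
      G4 9 0 (by simp) (by omega)]
    congr 1
    have e4 : (rd 4 (.c 0)).ev w ρ m5 = zc X n % 2 :=
      ev_rd' E (by omega) (c0 m5) (by omega) P5 (by omega)
    rw [e4]
    split_ifs with h
    · rw [h]; simp
    · have : zc X n % 2 = 1 := by omega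
      rw [this]; simp

def pMain : Sm := .rep 3 8 pBody

theorem pMain_ev (E : Env w n k ρ) (h3 : ρ 3 = 2 ^ n) (h2 : 2 ^ n < 2 ^ w) (hG : Good n A lab m)
    (hl : ∀ v < n, lab v ≤ n) (z8 : cell n m 8 0 = 0) (z9 : cell n m 9 0 = 0) :
    ((cell n (pMain.ev w ρ m) 8 0 : ℕ) : ZMod (2 ^ w)) - (cell n (pMain.ev w ρ m) 9 0 : ℕ) =
      ∑ X ∈ range (2 ^ n), (-1) ^ zc X n *
        hT n A lab (fun v => ((X.testBit v).toNat : ZMod (2 ^ w))) k n := by
  have := rep_inv (w := w) (ρ := ρ) (m := m) (x := 3) (v := 8) (b := pBody)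
    (fun q m' => Good n A lab m' ∧
      ((cell n m' 8 0 : ℕ) : ZMod (2 ^ w)) - (cell n m' 9 0 : ℕ) =
      ∑ X ∈ range q, (-1) ^ zc X n *
        hT n A lab (fun v => ((X.testBit v).toNat : ZMod (2 ^ w))) k n)
    ⟨hG, by rw [z8, z9]; simp⟩ ?_
  · rw [h3] at this
    exact this.2
  · rintro X hX m1 ⟨G1, C1⟩
    rw [h3] at hX
    have E1 := E.upd (v := 8) (by omega) X
    obtain ⟨G2, P2, Q2⟩ := pBody_ev E1 h2 G1 hl (X := X) (by simp) hX
    refine ⟨G2, ?_⟩
    rw [P2, Q2, sum_range_succ, ← C1]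
    by_cases h : zc X n % 2 = 0
    · rw [if_pos h, if_pos h]
      have : (-1 : ZMod (2 ^ w)) ^ zc X n = 1 := Even.neg_one_pow (Nat.even_iff.2 h)
      rw [this]
      ring
    · rw [if_neg h, if_neg h]
      have : (-1 : ZMod (2 ^ w)) ^ zc X n = -1 := Odd.neg_one_pow (Nat.odd_iff.2 (by omega))
      rw [this]
      ring

end

end Pool.Agent.H641R2.DCS
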